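import Pool.Agent.Y539.XIC.Defs

/-!
Basic facts: transcripts have probabilities that are products of a function of `x` and a function
of `y`, and they sum to one.
-/

set_option autoImplicit false

namespace Pool.Agent.Y539.XIC

namespace Protocol

variable {X Y Z : Type}

/-- The part of the probability of a transcript that depends on `x` (and the public coins). -/
noncomputable def fA : (P : Protocol X Y Z) → X → P.Transcript → ℝ
  | out _, _, _ => 1
  | alice p P Q, x, t =>
    Sum.elim (fun t => (p x : ℝ) * P.fA x t) (fun t => (1 - (p x : ℝ)) * Q.fA x t) t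
  | bob _ P Q, x, t =>
    Sum.elim (fun t => P.fA x t) (fun t => Q.fA x t) t
  | coin p P Q, x, t =>
    Sum.elim (fun t => (p : ℝ) * P.fA x t) (fun t => (1 - (p : ℝ)) * Q.fA x t) t

/-- The part of the probability of a transcript that depends on `y`. -/
noncomputable def fB : (P : Protocol X Y Z) → Y → P.Transcript → ℝ
  | out _, _, _ => 1
  | alice _ P Q, y, t =>
    Sum.elim (fun t => P.fB y t) (fun t => Q.fB y t) t
  | bob p P Q, y, t =>
    Sum.elim (fun t => (p y : ℝ) * P.fB y t) (fun t => (1 - (p y : ℝ)) * Q.fB y t) t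
  | coin _ P Q, y, t =>
    Sum.elim (fun t => P.fB y t) (fun t => Q.fB y t) t

lemma prob_eq (P : Protocol X Y Z) (x : X) (y : Y) (t : P.Transcript) :
    P.prob x y t = P.fA x t * P.fB y t := by
  induction P with
  | out z => simp [prob, fA, fB]
  | alice p P Q hP hQ =>
    rcases t with t | t
    · simp only [prob, fA, fB, Sum.elim_inl, hP]; ring
    · simp only [prob, fA, fB, Sum.elim_inr, hQ]; ring
  | bob p P Q hP hQ =>
    rcases t with t | t
    · simp only [prob, fA, fB, Sum.elim_inl, hP]; ring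
    · simp only [prob, fA, fB, Sum.elim_inr, hQ]; ring
  | coin p P Q hP hQ =>
    rcases t with t | t
    · simp only [prob, fA, fB, Sum.elim_inl, hP]; ring
    · simp only [prob, fA, fB, Sum.elim_inr, hQ]; ring

lemma fA_nonneg (P : Protocol X Y Z) (x : X) (t : P.Transcript) : 0 ≤ P.fA x t := by
  induction P with
  | out z => simp [fA]
  | alice p P Q hP hQ =>
    rcases t with t | t
    · exact mul_nonneg (p x).2.1 (hP t)
    · exact mul_nonneg (sub_nonneg.2 (p x).2.2) (hQ t)
  | bob p P Q hP hQ =>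
    rcases t with t | t
    · exact hP t
    · exact hQ t
  | coin p P Q hP hQ =>
    rcases t with t | t
    · exact mul_nonneg p.2.1 (hP t)
    · exact mul_nonneg (sub_nonneg.2 p.2.2) (hQ t)

lemma fB_nonneg (P : Protocol X Y Z) (y : Y) (t : P.Transcript) : 0 ≤ P.fB y t := by
  induction P with
  | out z => simp [fB]
  | alice p P Q hP hQ =>
    rcases t with t | t
    · exact hP t
    · exact hQ t
  | bob p P Q hP hQ =>
    rcases t with t | t
    · exact mul_nonneg (p y).2.1 (hP t)
    · exact mul_nonneg (sub_nonneg.2 (p y).2.2) (hQ t)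
  | coin p P Q hP hQ =>
    rcases t with t | t
    · exact hP t
    · exact hQ t

lemma prob_nonneg (P : Protocol X Y Z) (x : X) (y : Y) (t : P.Transcript) :
    0 ≤ P.prob x y t := by
  rw [prob_eq]
  exact mul_nonneg (P.fA_nonneg x t) (P.fB_nonneg y t)

lemma sum_alice (p : X → unitInterval) (P Q : Protocol X Y Z) (f : (alice p P Q).Transcript → ℝ) :
    ∑ t, f t = ∑ t : P.Transcript, f (Sum.inl t) + ∑ t : Q.Transcript, f (Sum.inr t) :=
  Fintype.sum_sum_type f

lemma sum_bob (p : Y → unitInterval) (P Q : Protocol X Y Z) (f : (bob p P Q).Transcript → ℝ) :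
    ∑ t, f t = ∑ t : P.Transcript, f (Sum.inl t) + ∑ t : Q.Transcript, f (Sum.inr t) :=
  Fintype.sum_sum_type f

lemma sum_coin (p : unitInterval) (P Q : Protocol X Y Z) (f : (coin p P Q).Transcript → ℝ) :
    ∑ t, f t = ∑ t : P.Transcript, f (Sum.inl t) + ∑ t : Q.Transcript, f (Sum.inr t) :=
  Fintype.sum_sum_type f

lemma sum_prob (P : Protocol X Y Z) (x : X) (y : Y) : ∑ t, P.prob x y t = 1 := by
  induction P with
  | out z =>
    have : (∑ t : (out z : Protocol X Y Z).Transcript, (out z).prob x y t) =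
        ∑ _t : Unit, (1 : ℝ) := rfl
    rw [this]; simp
  | alice p P Q hP hQ =>
    rw [sum_alice]
    simp only [prob, Sum.elim_inl, Sum.elim_inr]
    rw [← Finset.mul_sum, ← Finset.mul_sum, hP, hQ]
    ring
  | bob p P Q hP hQ =>
    rw [sum_bob]
    simp only [prob, Sum.elim_inl, Sum.elim_inr]
    rw [← Finset.mul_sum, ← Finset.mul_sum, hP, hQ]
    ring
  | coin p P Q hP hQ =>
    rw [sum_coin]
    simp only [prob, Sum.elim_inl, Sum.elim_inr]
    rw [← Finset.mul_sum, ← Finset.mul_sum, hP, hQ]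
    ring

lemma cost_nonneg (P : Protocol X Y Z) (x : X) (y : Y) : 0 ≤ P.cost x y := by
  induction P with
  | out z => simp [cost]
  | alice p P Q hP hQ =>
    have := mul_nonneg (p x).2.1 hP
    have := mul_nonneg (sub_nonneg.2 (p x).2.2) hQ
    simp only [cost]
    linarith
  | bob p P Q hP hQ =>
    have := mul_nonneg (p y).2.1 hP
    have := mul_nonneg (sub_nonneg.2 (p y).2.2) hQ
    simp only [cost]
    linarith
  | coin p P Q hP hQ =>
    have := mul_nonneg p.2.1 hP
    have := mul_nonneg (sub_nonneg.2 p.2.2) hQ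
    simp only [cost]
    linarith

/-- The output `z` occurs with positive probability on the input `(x, y)`. -/
def Reach : Protocol X Y Z → X → Y → Z → Prop
  | out z', _, _, z => z' = z
  | alice p P Q, x, y, z => ((p x : ℝ) ≠ 0 ∧ P.Reach x y z) ∨ (1 - (p x : ℝ) ≠ 0 ∧ Q.Reach x y z)
  | bob p P Q, x, y, z => ((p y : ℝ) ≠ 0 ∧ P.Reach x y z) ∨ (1 - (p y : ℝ) ≠ 0 ∧ Q.Reach x y z)
  | coin p P Q, x, y, z => ((p : ℝ) ≠ 0 ∧ P.Reach x y z) ∨ (1 - (p : ℝ) ≠ 0 ∧ Q.Reach x y z)

lemma reach_of_prob (P : Protocol X Y Z) (x : X) (y : Y) (t : P.Transcript)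
    (h : P.prob x y t ≠ 0) : P.Reach x y (P.output t) := by
  induction P with
  | out z => rfl
  | alice p P Q hP hQ =>
    rcases t with t | t
    · have h' : (p x : ℝ) * P.prob x y t ≠ 0 := h
      exact Or.inl ⟨left_ne_zero_of_mul h', hP t (right_ne_zero_of_mul h')⟩
    · have h' : (1 - (p x : ℝ)) * Q.prob x y t ≠ 0 := h
      exact Or.inr ⟨left_ne_zero_of_mul h', hQ t (right_ne_zero_of_mul h')⟩
  | bob p P Q hP hQ =>
    rcases t with t | t
    · have h' : (p y : ℝ) * P.prob x y t ≠ 0 := h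
      exact Or.inl ⟨left_ne_zero_of_mul h', hP t (right_ne_zero_of_mul h')⟩
    · have h' : (1 - (p y : ℝ)) * Q.prob x y t ≠ 0 := h
      exact Or.inr ⟨left_ne_zero_of_mul h', hQ t (right_ne_zero_of_mul h')⟩
  | coin p P Q hP hQ =>
    rcases t with t | t
    · have h' : (p : ℝ) * P.prob x y t ≠ 0 := h
      exact Or.inl ⟨left_ne_zero_of_mul h', hP t (right_ne_zero_of_mul h')⟩
    · have h' : (1 - (p : ℝ)) * Q.prob x y t ≠ 0 := h
      exact Or.inr ⟨left_ne_zero_of_mul h', hQ t (right_ne_zero_of_mul h')⟩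

lemma prob_of_reach (P : Protocol X Y Z) (x : X) (y : Y) (z : Z)
    (h : P.Reach x y z) : ∃ t, P.prob x y t ≠ 0 ∧ P.output t = z := by
  induction P with
  | out z' => exact ⟨(), by simp [prob], h⟩
  | alice p P Q hP hQ =>
    rcases h with ⟨h1, h2⟩ | ⟨h1, h2⟩
    · obtain ⟨t, ht, hz⟩ := hP h2
      exact ⟨Sum.inl t, mul_ne_zero h1 ht, hz⟩
    · obtain ⟨t, ht, hz⟩ := hQ h2
      exact ⟨Sum.inr t, mul_ne_zero h1 ht, hz⟩
  | bob p P Q hP hQ =>
    rcases h with ⟨h1, h2⟩ | ⟨h1, h2⟩
    · obtain ⟨t, ht, hz⟩ := hP h2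
      exact ⟨Sum.inl t, mul_ne_zero h1 ht, hz⟩
    · obtain ⟨t, ht, hz⟩ := hQ h2
      exact ⟨Sum.inr t, mul_ne_zero h1 ht, hz⟩
  | coin p P Q hP hQ =>
    rcases h with ⟨h1, h2⟩ | ⟨h1, h2⟩
    · obtain ⟨t, ht, hz⟩ := hP h2
      exact ⟨Sum.inl t, mul_ne_zero h1 ht, hz⟩
    · obtain ⟨t, ht, hz⟩ := hQ h2
      exact ⟨Sum.inr t, mul_ne_zero h1 ht, hz⟩

lemma zeroError_iff (P : Protocol X Y Z) (F : X → Y → Z) :
    P.ZeroError F ↔ ∀ x y z, P.Reach x y z → z = F x y := by
  constructor
  · intro h x y z hz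
    obtain ⟨t, ht, rfl⟩ := P.prob_of_reach x y z hz
    exact h x y t ht
  · intro h x y t ht
    exact h x y _ (P.reach_of_prob x y t ht)

/-! ### Combinators -/

/-- Change of the inputs. -/
def comap {X' Y' : Type} (f : X' → X) (g : Y' → Y) : Protocol X Y Z → Protocol X' Y' Z
  | out z => out z
  | alice p P Q => alice (fun x => p (f x)) (P.comap f g) (Q.comap f g)
  | bob p P Q => bob (fun y => p (g y)) (P.comap f g) (Q.comap f g)
  | coin p P Q => coin p (P.comap f g) (Q.comap f g)

lemma cost_comap {X' Y' : Type} (f : X' → X) (g : Y' → Y) (P : Protocol X Y Z) (x : X') (y : Y') :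
    (P.comap f g).cost x y = P.cost (f x) (g y) := by
  induction P with
  | out z => rfl
  | alice p P Q hP hQ => simp only [comap, cost, hP, hQ]
  | bob p P Q hP hQ => simp only [comap, cost, hP, hQ]
  | coin p P Q hP hQ => simp only [comap, cost, hP, hQ]

lemma reach_comap {X' Y' : Type} (f : X' → X) (g : Y' → Y) (P : Protocol X Y Z) (x : X') (y : Y')
    (z : Z) : (P.comap f g).Reach x y z ↔ P.Reach (f x) (g y) z := by
  induction P with
  | out z => rfl
  | alice p P Q hP hQ => simp only [comap, Reach, hP, hQ]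
  | bob p P Q hP hQ => simp only [comap, Reach, hP, hQ]
  | coin p P Q hP hQ => simp only [comap, Reach, hP, hQ]

/-- Sequential composition. -/
def bind {Z' : Type} : Protocol X Y Z → (Z → Protocol X Y Z') → Protocol X Y Z'
  | out z, K => K z
  | alice p P Q, K => alice p (P.bind K) (Q.bind K)
  | bob p P Q, K => bob p (P.bind K) (Q.bind K)
  | coin p P Q, K => coin p (P.bind K) (Q.bind K)

lemma cost_bind {Z' : Type} (P : Protocol X Y Z) (K : Z → Protocol X Y Z') (x : X) (y : Y) (c : ℝ)
    (h : ∀ z, (K z).cost x y = c) : (P.bind K).cost x y = P.cost x y + c := by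
  induction P with
  | out z => simp only [bind, cost, h, zero_add]
  | alice p P Q hP hQ => simp only [bind, cost, hP, hQ]; ring
  | bob p P Q hP hQ => simp only [bind, cost, hP, hQ]; ring
  | coin p P Q hP hQ => simp only [bind, cost, hP, hQ]; ring

lemma reach_bind {Z' : Type} (P : Protocol X Y Z) (K : Z → Protocol X Y Z') (x : X) (y : Y)
    (z' : Z') : (P.bind K).Reach x y z' ↔ ∃ z, P.Reach x y z ∧ (K z).Reach x y z' := by
  induction P with
  | out z => simp [bind, Reach]
  | alice p P Q hP hQ =>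
    simp only [bind, Reach, hP, hQ]
    constructor
    · rintro (⟨h1, z, h2, h3⟩ | ⟨h1, z, h2, h3⟩)
      · exact ⟨z, Or.inl ⟨h1, h2⟩, h3⟩
      · exact ⟨z, Or.inr ⟨h1, h2⟩, h3⟩
    · rintro ⟨z, (⟨h1, h2⟩ | ⟨h1, h2⟩), h3⟩
      · exact Or.inl ⟨h1, z, h2, h3⟩
      · exact Or.inr ⟨h1, z, h2, h3⟩
  | bob p P Q hP hQ =>
    simp only [bind, Reach, hP, hQ]
    constructor
    · rintro (⟨h1, z, h2, h3⟩ | ⟨h1, z, h2, h3⟩)
      · exact ⟨z, Or.inl ⟨h1, h2⟩, h3⟩
      · exact ⟨z, Or.inr ⟨h1, h2⟩, h3⟩
    · rintro ⟨z, (⟨h1, h2⟩ | ⟨h1, h2⟩), h3⟩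
      · exact Or.inl ⟨h1, z, h2, h3⟩
      · exact Or.inr ⟨h1, z, h2, h3⟩
  | coin p P Q hP hQ =>
    simp only [bind, Reach, hP, hQ]
    constructor
    · rintro (⟨h1, z, h2, h3⟩ | ⟨h1, z, h2, h3⟩)
      · exact ⟨z, Or.inl ⟨h1, h2⟩, h3⟩
      · exact ⟨z, Or.inr ⟨h1, h2⟩, h3⟩
    · rintro ⟨z, (⟨h1, h2⟩ | ⟨h1, h2⟩), h3⟩
      · exact Or.inl ⟨h1, z, h2, h3⟩
      · exact Or.inr ⟨h1, z, h2, h3⟩

/-- A deterministic bit as an element of the unit interval. -/
def detBit (b : Bool) : unitInterval := if b then 1 else 0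

@[simp] lemma detBit_true : (detBit true : ℝ) = 1 := by simp [detBit]
@[simp] lemma detBit_false : (detBit false : ℝ) = 0 := by simp [detBit]

/-- Alice sends the `j` bits `f x`. -/
def sendA : (j : ℕ) → (X → Fin j → Bool) → ((Fin j → Bool) → Protocol X Y Z) → Protocol X Y Z
  | 0, _, K => K Fin.elim0
  | j + 1, f, K => alice (fun x => detBit (f x 0))
      (sendA j (fun x => Fin.tail (f x)) (fun v => K (Fin.cons true v)))
      (sendA j (fun x => Fin.tail (f x)) (fun v => K (Fin.cons false v)))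

/-- Bob sends the `j` bits `f y`. -/
def sendB : (j : ℕ) → (Y → Fin j → Bool) → ((Fin j → Bool) → Protocol X Y Z) → Protocol X Y Z
  | 0, _, K => K Fin.elim0
  | j + 1, f, K => bob (fun y => detBit (f y 0))
      (sendB j (fun y => Fin.tail (f y)) (fun v => K (Fin.cons true v)))
      (sendB j (fun y => Fin.tail (f y)) (fun v => K (Fin.cons false v)))

lemma cost_sendA (j : ℕ) (f : X → Fin j → Bool) (K : (Fin j → Bool) → Protocol X Y Z)
    (x : X) (y : Y) : (sendA j f K).cost x y = j + (K (f x)).cost x y := by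
  induction j with
  | zero =>
    have : f x = Fin.elim0 := Subsingleton.elim _ _
    simp [sendA, this]
  | succ j ih =>
    simp only [sendA, cost, ih]
    have h : Fin.cons (f x 0) (Fin.tail (f x)) = f x := Fin.cons_self_tail _
    cases hb : f x 0
    · rw [hb] at h
      simp only [detBit_false, h]
      push_cast; ring
    · rw [hb] at h
      simp only [detBit_true, h]
      push_cast; ring

lemma cost_sendB (j : ℕ) (f : Y → Fin j → Bool) (K : (Fin j → Bool) → Protocol X Y Z)
    (x : X) (y : Y) : (sendB j f K).cost x y = j + (K (f y)).cost x y := by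
  induction j with
  | zero =>
    have : f y = Fin.elim0 := Subsingleton.elim _ _
    simp [sendB, this]
  | succ j ih =>
    simp only [sendB, cost, ih]
    have h : Fin.cons (f y 0) (Fin.tail (f y)) = f y := Fin.cons_self_tail _
    cases hb : f y 0
    · rw [hb] at h
      simp only [detBit_false, h]
      push_cast; ring
    · rw [hb] at h
      simp only [detBit_true, h]
      push_cast; ring

lemma reach_sendA (j : ℕ) (f : X → Fin j → Bool) (K : (Fin j → Bool) → Protocol X Y Z)
    (x : X) (y : Y) (z : Z) : (sendA j f K).Reach x y z ↔ (K (f x)).Reach x y z := by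
  induction j with
  | zero =>
    have : f x = Fin.elim0 := Subsingleton.elim _ _
    simp [sendA, this]
  | succ j ih =>
    simp only [sendA, Reach, ih]
    have h : Fin.cons (f x 0) (Fin.tail (f x)) = f x := Fin.cons_self_tail _
    cases hb : f x 0
    · rw [hb] at h
      simp [h]
    · rw [hb] at h
      simp [h]

lemma reach_sendB (j : ℕ) (f : Y → Fin j → Bool) (K : (Fin j → Bool) → Protocol X Y Z)
    (x : X) (y : Y) (z : Z) : (sendB j f K).Reach x y z ↔ (K (f y)).Reach x y z := by
  induction j with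
  | zero =>
    have : f y = Fin.elim0 := Subsingleton.elim _ _
    simp [sendB, this]
  | succ j ih =>
    simp only [sendB, Reach, ih]
    have h : Fin.cons (f y 0) (Fin.tail (f y)) = f y := Fin.cons_self_tail _
    cases hb : f y 0
    · rw [hb] at h
      simp [h]
    · rw [hb] at h
      simp [h]

section Val

variable {S : Type} [Fintype S] [Nonempty S]

lemma exists_code (S : Type) [Fintype S] (j : ℕ) (h : Fintype.card S ≤ 2 ^ j) :
    ∃ c : S → Fin j → Bool, Function.Injective c := by
  have : Fintype.card S ≤ Fintype.card (Fin j → Bool) := by simpa using h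
  obtain ⟨e⟩ := Function.Embedding.nonempty_of_card_le this
  exact ⟨e, e.injective⟩

/-- Alice sends an element of `S` with `j` bits, where `|S| ≤ 2 ^ j`. -/
noncomputable def valA (j : ℕ) (h : Fintype.card S ≤ 2 ^ j) (f : X → S)
    (K : S → Protocol X Y Z) : Protocol X Y Z :=
  sendA j (fun x => (exists_code S j h).choose (f x))
    (fun v => K (Function.invFun (exists_code S j h).choose v))

/-- Bob sends an element of `S` with `j` bits, where `|S| ≤ 2 ^ j`. -/
noncomputable def valB (j : ℕ) (h : Fintype.card S ≤ 2 ^ j) (f : Y → S)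
    (K : S → Protocol X Y Z) : Protocol X Y Z :=
  sendB j (fun y => (exists_code S j h).choose (f y))
    (fun v => K (Function.invFun (exists_code S j h).choose v))

lemma cost_valA (j : ℕ) (h : Fintype.card S ≤ 2 ^ j) (f : X → S) (K : S → Protocol X Y Z)
    (x : X) (y : Y) : (valA j h f K).cost x y = j + (K (f x)).cost x y := by
  unfold valA
  rw [cost_sendA, Function.leftInverse_invFun (exists_code S j h).choose_spec]

lemma cost_valB (j : ℕ) (h : Fintype.card S ≤ 2 ^ j) (f : Y → S) (K : S → Protocol X Y Z)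
    (x : X) (y : Y) : (valB j h f K).cost x y = j + (K (f y)).cost x y := by
  unfold valB
  rw [cost_sendB, Function.leftInverse_invFun (exists_code S j h).choose_spec]

lemma reach_valA (j : ℕ) (h : Fintype.card S ≤ 2 ^ j) (f : X → S) (K : S → Protocol X Y Z)
    (x : X) (y : Y) (z : Z) : (valA j h f K).Reach x y z ↔ (K (f x)).Reach x y z := by
  unfold valA
  rw [reach_sendA, Function.leftInverse_invFun (exists_code S j h).choose_spec]

lemma reach_valB (j : ℕ) (h : Fintype.card S ≤ 2 ^ j) (f : Y → S) (K : S → Protocol X Y Z)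
    (x : X) (y : Y) (z : Z) : (valB j h f K).Reach x y z ↔ (K (f y)).Reach x y z := by
  unfold valB
  rw [reach_sendB, Function.leftInverse_invFun (exists_code S j h).choose_spec]

end Val

/-- Every function has a zero-error protocol. -/
lemma exists_zeroError [Fintype Y] [Nonempty Y] [Fintype Z] [Nonempty Z] (F : X → Y → Z) :
    ∃ P : Protocol X Y Z, P.ZeroError F := by
  have h1 : Fintype.card Y ≤ 2 ^ Fintype.card Y := Nat.lt_two_pow_self.le
  have h2 : Fintype.card Z ≤ 2 ^ Fintype.card Z := Nat.lt_two_pow_self.le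
  refine ⟨valB _ h1 id (fun y => valA _ h2 (fun x => F x y) (fun z => out z)), ?_⟩
  rw [zeroError_iff]
  intro x y z hz
  rw [reach_valB, reach_valA] at hz
  exact hz.symm

end Protocol

end Pool.Agent.Y539.XIC
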