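import Mathlib

/-!
Two-party protocols with private and public coins, external information, expected communication,
and the zero-error measures built from them.
-/

set_option autoImplicit false

namespace Pool.Agent.Y539.XIC

open scoped BigOperators

/-- A two-party communication protocol (a finite tree) on inputs `x : X` (Alice) and `y : Y` (Bob)
with outputs in `Z`.
* `out z`: the protocol stops with output `z`.
* `alice p P Q`: Alice sends one bit; it is `1` with probability `p x` (her private coins), and then
  the protocol continues with `P`, otherwise it is `0` and the protocol continues with `Q`.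
* `bob p P Q`: the same for Bob, with probability `p y`.
* `coin p P Q`: a public coin; with probability `p` the protocol continues with `P`, otherwise with
  `Q`. -/
inductive Protocol (X Y Z : Type) : Type
  | out (z : Z) : Protocol X Y Z
  | alice (p : X → unitInterval) (P Q : Protocol X Y Z) : Protocol X Y Z
  | bob (p : Y → unitInterval) (P Q : Protocol X Y Z) : Protocol X Y Z
  | coin (p : unitInterval) (P Q : Protocol X Y Z) : Protocol X Y Z

namespace Protocol

variable {X Y Z : Type}

/-- The transcripts of a protocol (the bits sent and the public coins), that is, its leaves. -/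
def Transcript : Protocol X Y Z → Type
  | out _ => Unit
  | alice _ P Q => P.Transcript ⊕ Q.Transcript
  | bob _ P Q => P.Transcript ⊕ Q.Transcript
  | coin _ P Q => P.Transcript ⊕ Q.Transcript

/-- There are finitely many transcripts. -/
instance instFintypeTranscript : (P : Protocol X Y Z) → Fintype P.Transcript
  | out _ => inferInstanceAs (Fintype Unit)
  | alice _ P Q =>
    letI := instFintypeTranscript P
    letI := instFintypeTranscript Q
    inferInstanceAs (Fintype (P.Transcript ⊕ Q.Transcript))
  | bob _ P Q =>
    letI := instFintypeTranscript P
    letI := instFintypeTranscript Q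
    inferInstanceAs (Fintype (P.Transcript ⊕ Q.Transcript))
  | coin _ P Q =>
    letI := instFintypeTranscript P
    letI := instFintypeTranscript Q
    inferInstanceAs (Fintype (P.Transcript ⊕ Q.Transcript))

/-- The probability of the transcript `t` on the input `(x, y)`. -/
noncomputable def prob : (P : Protocol X Y Z) → X → Y → P.Transcript → ℝ
  | out _, _, _, _ => 1
  | alice p P Q, x, y, t =>
    Sum.elim (fun t => (p x : ℝ) * P.prob x y t) (fun t => (1 - (p x : ℝ)) * Q.prob x y t) t
  | bob p P Q, x, y, t =>
    Sum.elim (fun t => (p y : ℝ) * P.prob x y t) (fun t => (1 - (p y : ℝ)) * Q.prob x y t) t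
  | coin p P Q, x, y, t =>
    Sum.elim (fun t => (p : ℝ) * P.prob x y t) (fun t => (1 - (p : ℝ)) * Q.prob x y t) t

/-- The output of the protocol, a function of the transcript. -/
def output : (P : Protocol X Y Z) → P.Transcript → Z
  | out z, _ => z
  | alice _ P Q, t => Sum.elim P.output Q.output t
  | bob _ P Q, t => Sum.elim P.output Q.output t
  | coin _ P Q, t => Sum.elim P.output Q.output t

/-- The protocol computes `F` with zero error: on every input and for every outcome of the coins
the output is `F x y`. -/
def ZeroError (P : Protocol X Y Z) (F : X → Y → Z) : Prop :=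
  ∀ x y t, P.prob x y t ≠ 0 → P.output t = F x y

/-- The expected number of bits exchanged on the input `(x, y)` (public coins are free). -/
noncomputable def cost : Protocol X Y Z → X → Y → ℝ
  | out _, _, _ => 0
  | alice p P Q, x, y => 1 + ((p x : ℝ) * P.cost x y + (1 - (p x : ℝ)) * Q.cost x y)
  | bob p P Q, x, y => 1 + ((p y : ℝ) * P.cost x y + (1 - (p y : ℝ)) * Q.cost x y)
  | coin p P Q, x, y => (p : ℝ) * P.cost x y + (1 - (p : ℝ)) * Q.cost x y

/-- The external information `I_μ(Π; XY)`, in bits: the mutual information between the transcript
and the pair of inputs, for inputs distributed by `μ`. -/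
noncomputable def extInfo [Fintype X] [Fintype Y] (P : Protocol X Y Z) (μ : X → Y → ℝ) : ℝ :=
  ∑ t, ∑ x, ∑ y, μ x y * P.prob x y t *
    Real.logb 2 (P.prob x y t / ∑ x', ∑ y', μ x' y' * P.prob x' y' t)

end Protocol

/-- `μ` is a probability distribution on `X × Y`. -/
def IsProb {X Y : Type} [Fintype X] [Fintype Y] (μ : X → Y → ℝ) : Prop :=
  (∀ x y, 0 ≤ μ x y) ∧ ∑ x, ∑ y, μ x y = 1

/-- `IC^ext(F, 0, μ)`: the infimum of the external information of the zero-error protocols
for `F`. -/
noncomputable def ICext {X Y : Type} [Fintype X] [Fintype Y] (F : X → Y → Bool)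
    (μ : X → Y → ℝ) : ℝ :=
  sInf {r : ℝ | ∃ P : Protocol X Y Bool, P.ZeroError F ∧ r = P.extInfo μ}

/-- The expected communication complexity of `F^n` under `μ^n` for zero-error protocols: the
infimum of the expected number of bits exchanged on inputs distributed by `μ^n`, over the protocols
computing `F` on `n` independent coordinates with zero error. -/
noncomputable def CC {X Y : Type} [Fintype X] [Fintype Y] (F : X → Y → Bool)
    (μ : X → Y → ℝ) (n : ℕ) : ℝ :=
  sInf {r : ℝ | ∃ P : Protocol (Fin n → X) (Fin n → Y) (Fin n → Bool),
    P.ZeroError (fun x y i => F (x i) (y i)) ∧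
    r = ∑ x, ∑ y, (∏ i, μ (x i) (y i)) * P.cost x y}

end Pool.Agent.Y539.XIC
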