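import Pool.Agent.Y539.XIC.Sub

/-!
The function and the distribution of the counterexample.
-/

set_option autoImplicit false

namespace Pool.Agent.Y539.XIC

open Protocol

/-- The indicator vector of `b`. -/
def sing {k : ℕ} (b : Fin k) : Fin k → Bool := fun i => decide (i = b)

lemma sing_self {k : ℕ} (b : Fin k) : sing b b = true := by simp [sing]

lemma sing_eq {k : ℕ} {b i : Fin k} (h : sing b i = true) : i = b := by simpa [sing] using h

lemma sing_inj {k : ℕ} {b c : Fin k} (h : sing b = sing c) : b = c := by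
  have := congrFun h b
  rw [sing_self] at this
  exact sing_eq this.symm

/-- The function: the hint bits differ, or the two sets meet. -/
def Fc (k : ℕ) (x y : Fin (k + 1) → Bool) : Bool :=
  decide (x 0 ≠ y 0 ∨ ∃ i : Fin k, x i.succ = true ∧ y i.succ = true)

/-- The part of the distribution with equal hint bits. -/
noncomputable def muM (k : ℕ) (ε : ℝ) (x y : Fin (k + 1) → Bool) : ℝ :=
  ∑ b : Fin k, if y = Fin.cons (x 0) (sing b) then
    (if x b.succ = true then (1 - ε) / (k * 2 ^ k) else 0) else 0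

/-- The part of the distribution with different hint bits. -/
noncomputable def muN (k : ℕ) (ε : ℝ) (x y : Fin (k + 1) → Bool) : ℝ :=
  ∑ b : Fin k, if y = Fin.cons (!(x 0)) (sing b) then ε / (k * 2 ^ (k + 1)) else 0

/-- The distribution. -/
noncomputable def muC (k : ℕ) (ε : ℝ) (x y : Fin (k + 1) → Bool) : ℝ := muM k ε x y + muN k ε x y

lemma sum_cons {k : ℕ} (f : (Fin (k + 1) → Bool) → ℝ) :
    ∑ x, f x = ∑ w : Bool, ∑ A : Fin k → Bool, f (Fin.cons w A) := by
  rw [← Fintype.sum_prod_type' (f := fun w A => f (Fin.cons w A))]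
  exact (Equiv.sum_comp (Fin.consEquiv (fun _ => Bool)) f).symm

lemma sum_muM (k : ℕ) (ε : ℝ) (G : (Fin (k + 1) → Bool) → (Fin (k + 1) → Bool) → ℝ) :
    ∑ x, ∑ y, muM k ε x y * G x y = ∑ w : Bool, ∑ A : Fin k → Bool, ∑ b : Fin k,
      if A b = true then (1 - ε) / (k * 2 ^ k) * G (Fin.cons w A) (Fin.cons w (sing b)) else 0 := by
  rw [sum_cons]
  apply Finset.sum_congr rfl
  intro w _
  apply Finset.sum_congr rfl
  intro A _
  unfold muM
  simp only [Finset.sum_mul]
  rw [Finset.sum_comm]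
  apply Finset.sum_congr rfl
  intro b _
  simp only [ite_mul, zero_mul]
  rw [Finset.sum_ite_eq' (Finset.univ)]
  simp [Fin.cons_zero, Fin.cons_succ]

lemma sum_muN (k : ℕ) (ε : ℝ) (G : (Fin (k + 1) → Bool) → (Fin (k + 1) → Bool) → ℝ) :
    ∑ x, ∑ y, muN k ε x y * G x y = ∑ w : Bool, ∑ A : Fin k → Bool, ∑ b : Fin k,
      ε / (k * 2 ^ (k + 1)) * G (Fin.cons w A) (Fin.cons (!w) (sing b)) := by
  rw [sum_cons]
  apply Finset.sum_congr rfl
  intro w _
  apply Finset.sum_congr rfl
  intro A _
  unfold muN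
  simp only [Finset.sum_mul]
  rw [Finset.sum_comm]
  apply Finset.sum_congr rfl
  intro b _
  simp only [ite_mul, zero_mul]
  rw [Finset.sum_ite_eq' (Finset.univ)]
  simp [Fin.cons_zero]

lemma sum_muC (k : ℕ) (ε : ℝ) (G : (Fin (k + 1) → Bool) → (Fin (k + 1) → Bool) → ℝ) :
    ∑ x, ∑ y, muC k ε x y * G x y = ∑ x, ∑ y, muM k ε x y * G x y +
      ∑ x, ∑ y, muN k ε x y * G x y := by
  unfold muC
  simp only [add_mul, Finset.sum_add_distrib]

lemma sum_half (k : ℕ) (b : Fin k) (c : ℝ) :
    ∑ A : Fin k → Bool, (if A b = true then c else 0) = 2 ^ k / 2 * c := by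
  have h1 : ∑ A : Fin k → Bool, (if A b = true then c else 0) =
      ∑ A : Fin k → Bool, (if A b = true then 0 else c) := by
    rw [← Equiv.sum_comp (Equiv.piCongrRight (fun _ : Fin k => Equiv.boolNot))]
    apply Finset.sum_congr rfl
    intro A _
    have : (Equiv.piCongrRight (fun _ : Fin k => Equiv.boolNot)) A b = !(A b) := rfl
    rw [this]
    cases A b <;> simp
  have h2 : ∑ A : Fin k → Bool, (if A b = true then c else 0) +
      ∑ A : Fin k → Bool, (if A b = true then 0 else c) = 2 ^ k * c := by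
    rw [← Finset.sum_add_distrib]
    have : ∀ A : Fin k → Bool, ((if A b = true then c else 0) + (if A b = true then 0 else c)) = c := by
      intro A
      split_ifs <;> simp
    simp [this]
  rw [← h1] at h2
  linarith

lemma mass_muM (k : ℕ) (hk : 0 < k) (ε : ℝ) : ∑ x, ∑ y, muM k ε x y = 1 - ε := by
  have := sum_muM k ε (fun _ _ => 1)
  simp only [mul_one] at this
  rw [this]
  have h : ∑ A : Fin k → Bool, ∑ b : Fin k,
      (if A b = true then (1 - ε) / (k * 2 ^ k) else 0) = (1 - ε) / 2 := by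
    rw [Finset.sum_comm]
    simp only [sum_half]
    rw [Finset.sum_const, Finset.card_univ, Fintype.card_fin, nsmul_eq_mul]
    field_simp
  rw [h]
  simp
  ring

lemma mass_muN (k : ℕ) (hk : 0 < k) (ε : ℝ) : ∑ x, ∑ y, muN k ε x y = ε := by
  have := sum_muN k ε (fun _ _ => 1)
  simp only [mul_one] at this
  rw [this]
  simp only [Finset.sum_const, Finset.card_univ, Fintype.card_fin, nsmul_eq_mul,
    Fintype.card_bool, Fintype.card_fun]
  push_cast
  rw [pow_succ]
  field_simp

lemma muM_nonneg (k : ℕ) (ε : ℝ) (hε : ε ≤ 1) (x y : Fin (k + 1) → Bool) : 0 ≤ muM k ε x y := by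
  unfold muM
  apply Finset.sum_nonneg
  intro b _
  have : 0 ≤ 1 - ε := by linarith
  split_ifs <;> positivity

lemma muN_nonneg (k : ℕ) (ε : ℝ) (hε : 0 ≤ ε) (x y : Fin (k + 1) → Bool) : 0 ≤ muN k ε x y := by
  unfold muN
  apply Finset.sum_nonneg
  intro b _
  split_ifs <;> positivity

lemma muC_nonneg (k : ℕ) (ε : ℝ) (h0 : 0 ≤ ε) (h1 : ε ≤ 1) (x y : Fin (k + 1) → Bool) :
    0 ≤ muC k ε x y := add_nonneg (muM_nonneg k ε h1 x y) (muN_nonneg k ε h0 x y)

lemma isProb_muC (k : ℕ) (hk : 0 < k) (ε : ℝ) (h0 : 0 ≤ ε) (h1 : ε ≤ 1) : IsProb (muC k ε) := by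
  refine ⟨muC_nonneg k ε h0 h1, ?_⟩
  unfold muC
  simp only [Finset.sum_add_distrib]
  rw [mass_muM k hk, mass_muN k hk]
  ring

/-- On the support of the distribution the function is `1`. -/
lemma Fc_of_muC {k : ℕ} {ε : ℝ} {x y : Fin (k + 1) → Bool} (h : muC k ε x y ≠ 0) :
    Fc k x y = true := by
  unfold Fc
  rw [decide_eq_true_iff]
  by_contra hne
  push Not at hne
  obtain ⟨h1, h2⟩ := hne
  apply h
  unfold muC muM muN
  rw [Finset.sum_eq_zero, Finset.sum_eq_zero, add_zero]
  · intro b _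
    rw [if_neg]
    intro hy
    rw [hy] at h1
    simp at h1
  · intro b _
    split_ifs with hy hx
    · exfalso
      apply h2 b hx
      rw [hy, Fin.cons_succ, sing_self]
    · rfl
    · rfl

/-- On the support of the distribution the set of Bob is a singleton. -/
lemma sing_of_muC {k : ℕ} {ε : ℝ} {x y : Fin (k + 1) → Bool} (h : muC k ε x y ≠ 0) :
    ∃ b : Fin k, Fin.tail y = sing b ∧ (x 0 = y 0 → x b.succ = true) := by
  by_contra hne
  push Not at hne
  apply h
  unfold muC muM muN
  rw [Finset.sum_eq_zero, Finset.sum_eq_zero, add_zero]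
  · intro b _
    rw [if_neg]
    intro hy
    have := hne b (by rw [hy]; rfl)
    rw [hy] at this
    simp at this
  · intro b _
    split_ifs with hy hx
    · exfalso
      have := hne b (by rw [hy]; rfl)
      exact this.2 hx
    · rfl
    · rfl

end Pool.Agent.Y539.XIC
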