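import Pool.Agent.Y539.XIC.Dist

/-!
The protocol for `n` copies, and the bound on the expected communication.
-/

set_option autoImplicit false

namespace Pool.Agent.Y539.XIC

open Protocol

section Proto

variable {k : ℕ} [NeZero k]

/-- The element of the singleton of Bob. -/
noncomputable def bpos (y : Fin (k + 1) → Bool) : Fin k :=
  open Classical in if h : ∃ b : Fin k, Fin.tail y = sing b then h.choose else 0

lemma bpos_eq {y : Fin (k + 1) → Bool} {b : Fin k} (h : Fin.tail y = sing b) : bpos y = b := by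
  have h' : ∃ b : Fin k, Fin.tail y = sing b := ⟨b, h⟩
  unfold bpos
  rw [dif_pos h']
  exact (sing_inj (h.symm.trans h'.choose_spec)).symm

/-- All the sets of Bob are singletons. -/
def AllSing {n : ℕ} (y : Fin n → Fin (k + 1) → Bool) : Prop :=
  ∀ i, ∃ b : Fin k, Fin.tail (y i) = sing b

noncomputable instance instDecidableAllSing {n : ℕ} (y : Fin n → Fin (k + 1) → Bool) :
    Decidable (AllSing y) := Classical.propDecidable _

lemma Fc_of_sing {x y : Fin (k + 1) → Bool} (h : ∃ b : Fin k, Fin.tail y = sing b) :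
    Fc k x y = (decide (x 0 ≠ y 0) || x (bpos y).succ) := by
  obtain ⟨b, hb⟩ := h
  rw [bpos_eq hb]
  have h1 : ∀ i : Fin k, y i.succ = sing b i := fun i => congrFun hb i
  unfold Fc
  by_cases h0 : x 0 = y 0
  · simp only [h0, ne_eq, not_true_eq_false, false_or, decide_false, Bool.false_or, h1]
    cases hx : x b.succ
    · rw [decide_eq_false_iff_not]
      rintro ⟨i, hi1, hi2⟩
      rw [sing_eq hi2, hx] at hi1
      exact Bool.noConfusion hi1
    · rw [decide_eq_true_iff]
      exact ⟨b, hx, sing_self b⟩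
  · simp [h0]

/-- The parity of the hint bits. -/
def par {n : ℕ} (x : Fin n → Fin (k + 1) → Bool) : ZMod 2 := ∑ i, if x i 0 = true then 1 else 0

lemma card_zmod2 : Fintype.card (ZMod 2) ≤ 2 ^ 1 := by
  rw [ZMod.card]; norm_num

lemma card_bool1 : Fintype.card Bool ≤ 2 ^ 1 := by simp

lemma card_vec (n : ℕ) : Fintype.card (Fin n → Bool) ≤ 2 ^ n := by simp

omit [NeZero k] in
lemma card_pos_vec {κ : ℕ} (hκ : k ≤ 2 ^ κ) (I : Type) [Fintype I] [DecidableEq I] :
    Fintype.card (I → Fin k) ≤ 2 ^ (κ * Fintype.card I) := by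
  rw [Fintype.card_fun, Fintype.card_fin, pow_mul]
  exact Nat.pow_le_pow_left hκ _

variable {κ : ℕ} (hκ : k ≤ 2 ^ κ) (n : ℕ)

/-- The task `F^n`. -/
def Fn (k n : ℕ) (x y : Fin n → Fin (k + 1) → Bool) (i : Fin n) : Bool := Fc k (x i) (y i)

/-- The protocol when the parities agree. -/
noncomputable def matchP :
    Protocol (Fin n → Fin (k + 1) → Bool) (Fin n → Fin (k + 1) → Bool) (Fin n → Bool) :=
  valB (κ * Fintype.card (Fin n)) (card_pos_vec hκ (Fin n)) (fun y i => bpos (y i)) fun b =>
    valA 1 card_bool1 (fun x => decide (∀ i, x i (b i).succ = true)) fun fl =>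
      if fl = true then out (fun _ => true) else
        valB n (card_vec n) (fun y i => y i 0) fun w' =>
          valA n (card_vec n) (fun x i => decide (x i 0 ≠ w' i) || x i (b i).succ) fun z => out z

/-- The protocol when the parities differ. -/
noncomputable def mismatchP :
    Protocol (Fin n → Fin (k + 1) → Bool) (Fin n → Fin (k + 1) → Bool) (Fin n → Bool) :=
  valA n (card_vec n) (fun x i => x i 0) fun w =>
    valB n (card_vec n) (fun y i => y i 0) fun w' =>
      valB (κ * Fintype.card {i // w i = w' i}) (card_pos_vec hκ {i // w i = w' i})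
        (fun y i => bpos (y i)) fun b =>
        valA n (card_vec n)
          (fun x i => if h : w i = w' i then x i (b ⟨i, h⟩).succ else true) fun z => out z

/-- The protocol for `n` copies. -/
noncomputable def protoN :
    Protocol (Fin n → Fin (k + 1) → Bool) (Fin n → Fin (k + 1) → Bool) (Fin n → Bool) :=
  valB 1 card_bool1 (fun y => decide (AllSing y)) fun fl =>
    if fl = true then
      valA 1 card_zmod2 par fun π =>
        valB 1 card_bool1 (fun y => decide (par y = π)) fun mt =>
          if mt = true then matchP hκ n else mismatchP hκ n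
    else (exists_zeroError (Fn k n)).choose

lemma matchP_reach {x y : Fin n → Fin (k + 1) → Bool} {z : Fin n → Bool} (hy : AllSing y)
    (h : (matchP hκ n).Reach x y z) : z = Fn k n x y := by
  unfold matchP at h
  rw [reach_valB, reach_valA] at h
  split_ifs at h with h1
  · have h2 : (fun _ => true) = z := h
    rw [decide_eq_true_iff] at h1
    rw [← h2]
    funext i
    unfold Fn
    rw [Fc_of_sing (hy i), h1 i]
    simp
  · rw [reach_valB, reach_valA] at h
    have h2 : (fun i => decide (x i 0 ≠ y i 0) || x i (bpos (y i)).succ) = z := h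
    rw [← h2]
    funext i
    unfold Fn
    rw [Fc_of_sing (hy i)]

lemma mismatchP_reach {x y : Fin n → Fin (k + 1) → Bool} {z : Fin n → Bool} (hy : AllSing y)
    (h : (mismatchP hκ n).Reach x y z) : z = Fn k n x y := by
  unfold mismatchP at h
  rw [reach_valA, reach_valB, reach_valB, reach_valA] at h
  have h2 : (fun i => if _ : x i 0 = y i 0 then x i (bpos (y i)).succ else true) = z := h
  rw [← h2]
  funext i
  unfold Fn
  rw [Fc_of_sing (hy i)]
  by_cases h0 : x i 0 = y i 0
  · simp [h0]
  · simp [h0]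

theorem protoN_zeroError : (protoN hκ n).ZeroError (Fn k n) := by
  rw [zeroError_iff]
  intro x y z h
  unfold protoN at h
  rw [reach_valB] at h
  split_ifs at h with h1
  · rw [decide_eq_true_iff] at h1
    rw [reach_valA, reach_valB] at h
    split_ifs at h with h2
    · exact matchP_reach hκ n h1 h
    · exact mismatchP_reach hκ n h1 h
  · exact (zeroError_iff _ _).1 (exists_zeroError (Fn k n)).choose_spec x y z h

/-- The number of copies with different hint bits. -/
def dist0 {n : ℕ} (x y : Fin n → Fin (k + 1) → Bool) : ℕ :=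
  (Finset.univ.filter fun i => x i 0 ≠ y i 0).card

omit [NeZero k] in
lemma par_sub {n : ℕ} (x y : Fin n → Fin (k + 1) → Bool) :
    par x - par y = (dist0 x y : ZMod 2) := by
  unfold par dist0
  rw [← Finset.sum_sub_distrib, Finset.card_filter, Nat.cast_sum]
  apply Finset.sum_congr rfl
  intro i _
  cases x i 0 <;> cases y i 0 <;> simp

omit [NeZero k] in
lemma par_eq_iff {n : ℕ} (x y : Fin n → Fin (k + 1) → Bool) :
    par y = par x ↔ Even (dist0 x y) := by
  rw [← ZMod.natCast_eq_zero_iff_even, ← par_sub, sub_eq_zero, eq_comm]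

/-- The cost of the protocol on the support of the distribution. -/
theorem protoN_cost {x y : Fin n → Fin (k + 1) → Bool} (hy : AllSing y)
    (hxy : ∀ i, x i 0 = y i 0 → x i (bpos (y i)).succ = true) :
    (protoN hκ n).cost x y ≤ 4 + κ * n + 3 * n * dist0 x y - κ * dist0 x y +
      κ * ((dist0 x y : ℝ) ^ 2 - dist0 x y) := by
  unfold protoN
  rw [cost_valB, if_pos (decide_eq_true hy), cost_valA, cost_valB]
  have hκ0 : (0 : ℝ) ≤ κ := Nat.cast_nonneg κ
  have hn0 : (0 : ℝ) ≤ n := Nat.cast_nonneg n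
  have hD0 : (0 : ℝ) ≤ dist0 x y := Nat.cast_nonneg _
  by_cases hpar : par y = par x
  · rw [if_pos (decide_eq_true hpar)]
    have hev := (par_eq_iff x y).1 hpar
    have hD : dist0 x y = 0 ∨ 2 ≤ dist0 x y := by
      obtain ⟨r, hr⟩ := hev
      omega
    have hDD : 0 ≤ (κ : ℝ) * ((dist0 x y : ℝ) * (dist0 x y - 2)) := by
      apply mul_nonneg hκ0
      rcases hD with h | h
      · rw [h]; simp
      · have : (2 : ℝ) ≤ dist0 x y := by exact_mod_cast h
        apply mul_nonneg hD0
        linarith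
    unfold matchP
    rw [cost_valB, cost_valA, Fintype.card_fin]
    split_ifs with h1
    · have : (out (fun _ => true) : Protocol (Fin n → Fin (k + 1) → Bool)
        (Fin n → Fin (k + 1) → Bool) (Fin n → Bool)).cost x y = 0 := rfl
      rw [this]
      push_cast
      nlinarith [mul_nonneg hn0 hD0]
    · rw [cost_valB, cost_valA]
      have h2 : ∀ z : Fin n → Bool, (out z : Protocol (Fin n → Fin (k + 1) → Bool)
        (Fin n → Fin (k + 1) → Bool) (Fin n → Bool)).cost x y = 0 := fun _ => rfl
      rw [h2]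
      have h3 : (2 : ℝ) ≤ dist0 x y := by
        rcases hD with h | h
        · exfalso
          apply h1
          rw [decide_eq_true_iff]
          intro i
          apply hxy i
          by_contra hne
          have : i ∈ (Finset.univ.filter fun i => x i 0 ≠ y i 0) := by simp [hne]
          rw [Finset.card_eq_zero.1 h] at this
          simp at this
        · exact_mod_cast h
      have h4 : (n : ℝ) * 2 ≤ n * dist0 x y := mul_le_mul_of_nonneg_left h3 hn0
      push_cast
      nlinarith
  · rw [if_neg (by simpa using hpar)]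
    have hodd : 1 ≤ dist0 x y := by
      by_contra hne
      apply hpar
      rw [par_eq_iff]
      have : dist0 x y = 0 := by omega
      rw [this]
      exact Even.zero
    unfold mismatchP
    rw [cost_valA, cost_valB, cost_valB, cost_valA]
    have h2 : ∀ z : Fin n → Bool, (out z : Protocol (Fin n → Fin (k + 1) → Bool)
        (Fin n → Fin (k + 1) → Bool) (Fin n → Bool)).cost x y = 0 := fun _ => rfl
    rw [h2]
    have h3 : Fintype.card {i // x i 0 = y i 0} + dist0 x y = n := by
      unfold dist0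
      rw [Fintype.card_subtype]
      have := Finset.card_filter_add_card_filter_not (s := (Finset.univ : Finset (Fin n)))
        (fun i => x i 0 = y i 0)
      simpa using this
    have h4 : (Fintype.card {i // x i 0 = y i 0} : ℝ) = n - dist0 x y := by
      have : (Fintype.card {i // x i 0 = y i 0} : ℝ) + dist0 x y = n := by exact_mod_cast h3
      linarith
    have h5 : (1 : ℝ) ≤ dist0 x y := by exact_mod_cast hodd
    have h6 : (n : ℝ) * 1 ≤ n * dist0 x y := mul_le_mul_of_nonneg_left h5 hn0
    have h7 : 0 ≤ (κ : ℝ) * ((dist0 x y : ℝ) * (dist0 x y - 1)) :=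
      mul_nonneg hκ0 (mul_nonneg hD0 (by linarith))
    push_cast
    rw [h4]
    nlinarith

end Proto

section Expect

variable {X Y : Type} [Fintype X] [Fintype Y]

/-- The expectation of a function of one coordinate. -/
lemma exp_one (μ : X → Y → ℝ) (hμ : ∑ x, ∑ y, μ x y = 1) {n : ℕ} (f : X → Y → ℝ) (i : Fin n) :
    ∑ x : Fin n → X, ∑ y : Fin n → Y, (∏ l, μ (x l) (y l)) * f (x i) (y i) =
      ∑ a, ∑ b, μ a b * f a b := by
  classical
  have h := sum_prod_pair (X := X) (Y := Y)
    (fun l a b => if l = i then μ a b * f a b else μ a b)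
  have h1 : ∀ (x : Fin n → X) (y : Fin n → Y),
      ∏ l, (if l = i then μ (x l) (y l) * f (x l) (y l) else μ (x l) (y l)) =
      (∏ l, μ (x l) (y l)) * f (x i) (y i) := by
    intro x y
    have : ∀ l, (if l = i then μ (x l) (y l) * f (x l) (y l) else μ (x l) (y l)) =
        μ (x l) (y l) * (if l = i then f (x l) (y l) else 1) := by
      intro l; split_ifs <;> simp
    simp only [this, Finset.prod_mul_distrib]
    rw [Finset.prod_ite_eq' Finset.univ i]
    simp
  simp only [h1] at h
  rw [h, ← Finset.mul_prod_erase Finset.univ _ (Finset.mem_univ i)]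
  simp only [if_true]
  rw [Finset.prod_eq_one, mul_one]
  intro l hl
  have hne : l ≠ i := (Finset.mem_erase.1 hl).1
  simp only [if_neg hne, hμ]

/-- The expectation of a product of functions of two coordinates. -/
lemma exp_two (μ : X → Y → ℝ) (hμ : ∑ x, ∑ y, μ x y = 1) {n : ℕ} (f : X → Y → ℝ)
    (i j : Fin n) (hij : i ≠ j) :
    ∑ x : Fin n → X, ∑ y : Fin n → Y,
      (∏ l, μ (x l) (y l)) * (f (x i) (y i) * f (x j) (y j)) =
      (∑ a, ∑ b, μ a b * f a b) ^ 2 := by
  classical
  have h := sum_prod_pair (X := X) (Y := Y)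
    (fun l a b => if l = i ∨ l = j then μ a b * f a b else μ a b)
  have h1 : ∀ (x : Fin n → X) (y : Fin n → Y),
      ∏ l, (if l = i ∨ l = j then μ (x l) (y l) * f (x l) (y l) else μ (x l) (y l)) =
      (∏ l, μ (x l) (y l)) * (f (x i) (y i) * f (x j) (y j)) := by
    intro x y
    have : ∀ l, (if l = i ∨ l = j then μ (x l) (y l) * f (x l) (y l) else μ (x l) (y l)) =
        μ (x l) (y l) * ((if l = i then f (x l) (y l) else 1) *
          (if l = j then f (x l) (y l) else 1)) := by
      intro l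
      by_cases h1 : l = i
      · have h2 : l ≠ j := fun h => hij (h1.symm.trans h)
        simp [h1, hij]
      · by_cases h2 : l = j
        · simp [h2, hij.symm]
        · simp [h1, h2]
    simp only [this, Finset.prod_mul_distrib]
    rw [Finset.prod_ite_eq' Finset.univ i, Finset.prod_ite_eq' Finset.univ j]
    simp
  simp only [h1] at h
  rw [h, ← Finset.mul_prod_erase Finset.univ _ (Finset.mem_univ i),
    ← Finset.mul_prod_erase _ _ (Finset.mem_erase.2 ⟨hij.symm, Finset.mem_univ j⟩)]
  simp only [true_or, or_true, if_true]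
  rw [Finset.prod_eq_one, mul_one, sq]
  intro l hl
  have h2 := Finset.mem_erase.1 hl
  have h3 := Finset.mem_erase.1 h2.2
  have hne : ¬(l = i ∨ l = j) := by
    rintro (h | h)
    · exact h3.1 h
    · exact h2.1 h
  simp only [if_neg hne, hμ]

end Expect

/-- The indicator of different hint bits. -/
def dlt {k : ℕ} (x y : Fin (k + 1) → Bool) : ℝ := if x 0 ≠ y 0 then 1 else 0

lemma mean_dlt (k : ℕ) (hk : 0 < k) (ε : ℝ) : ∑ x, ∑ y, muC k ε x y * dlt x y = ε := by
  rw [sum_muC, sum_muM, sum_muN]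
  have h1 : ∀ (w : Bool) (A : Fin k → Bool) (b : Fin k),
      dlt (Fin.cons w A : Fin (k + 1) → Bool) (Fin.cons w (sing b)) = 0 := by
    intro w A b
    simp [dlt]
  have h2 : ∀ (w : Bool) (A : Fin k → Bool) (b : Fin k),
      dlt (Fin.cons w A : Fin (k + 1) → Bool) (Fin.cons (!w) (sing b)) = 1 := by
    intro w A b
    simp [dlt]
  simp only [h1, h2, mul_zero, ite_self, Finset.sum_const_zero, zero_add]
  have := sum_muN k ε (fun _ _ => 1)
  rw [← this]
  simp only [mul_one]
  exact mass_muN k hk ε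

lemma dist0_eq {k n : ℕ} (x y : Fin n → Fin (k + 1) → Bool) :
    (dist0 x y : ℝ) = ∑ i, dlt (x i) (y i) := by
  unfold dist0 dlt
  rw [Finset.card_filter]
  push_cast
  rfl

lemma dist0_sq {k n : ℕ} (x y : Fin n → Fin (k + 1) → Bool) :
    (dist0 x y : ℝ) ^ 2 - dist0 x y =
      ∑ i, ∑ j, if i = j then 0 else dlt (x i) (y i) * dlt (x j) (y j) := by
  rw [dist0_eq, sq, Finset.sum_mul_sum, ← Finset.sum_sub_distrib]
  apply Finset.sum_congr rfl
  intro i _
  rw [← Finset.add_sum_erase Finset.univ _ (Finset.mem_univ i),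
    ← Finset.add_sum_erase Finset.univ (fun j => if i = j then 0 else dlt (x i) (y i) * dlt (x j) (y j))
      (Finset.mem_univ i)]
  have h1 : dlt (x i) (y i) * dlt (x i) (y i) = dlt (x i) (y i) := by
    unfold dlt; split_ifs <;> simp
  have h2 : ∑ j ∈ Finset.univ.erase i, (if i = j then 0 else dlt (x i) (y i) * dlt (x j) (y j)) =
      ∑ j ∈ Finset.univ.erase i, dlt (x i) (y i) * dlt (x j) (y j) := by
    apply Finset.sum_congr rfl
    intro j hj
    rw [if_neg (Finset.mem_erase.1 hj).1.symm]
  rw [h1, h2]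
  simp

lemma mean_dist0 (k : ℕ) (hk : 0 < k) (ε : ℝ) (h0 : 0 ≤ ε) (h1 : ε ≤ 1) (n : ℕ) :
    ∑ x : Fin n → Fin (k + 1) → Bool, ∑ y : Fin n → Fin (k + 1) → Bool,
      (∏ l, muC k ε (x l) (y l)) * (dist0 x y : ℝ) = n * ε := by
  have hμ := (isProb_muC k hk ε h0 h1).2
  simp only [dist0_eq, Finset.mul_sum]
  have : ∀ x : Fin n → Fin (k + 1) → Bool, ∑ y : Fin n → Fin (k + 1) → Bool, ∑ i,
      (∏ l, muC k ε (x l) (y l)) * dlt (x i) (y i) = ∑ i, ∑ y : Fin n → Fin (k + 1) → Bool,
      (∏ l, muC k ε (x l) (y l)) * dlt (x i) (y i) := fun x => Finset.sum_comm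
  simp only [this]
  rw [Finset.sum_comm]
  simp only [exp_one (muC k ε) hμ dlt, mean_dlt k hk ε]
  simp

lemma mean_dist0_sq (k : ℕ) (hk : 0 < k) (ε : ℝ) (h0 : 0 ≤ ε) (h1 : ε ≤ 1) (n : ℕ) :
    ∑ x : Fin n → Fin (k + 1) → Bool, ∑ y : Fin n → Fin (k + 1) → Bool,
      (∏ l, muC k ε (x l) (y l)) * ((dist0 x y : ℝ) ^ 2 - dist0 x y) = (n ^ 2 - n) * ε ^ 2 := by
  have hμ := (isProb_muC k hk ε h0 h1).2
  simp only [dist0_sq, Finset.mul_sum]
  have e1 : ∀ x : Fin n → Fin (k + 1) → Bool, ∑ y : Fin n → Fin (k + 1) → Bool, ∑ i, ∑ j,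
      (∏ l, muC k ε (x l) (y l)) * (if i = j then 0 else dlt (x i) (y i) * dlt (x j) (y j)) =
      ∑ i, ∑ j, ∑ y : Fin n → Fin (k + 1) → Bool,
      (∏ l, muC k ε (x l) (y l)) * (if i = j then 0 else dlt (x i) (y i) * dlt (x j) (y j)) := by
    intro x
    rw [Finset.sum_comm]
    apply Finset.sum_congr rfl
    intro i _
    rw [Finset.sum_comm]
  simp only [e1]
  rw [Finset.sum_comm]
  have e2 : ∀ i : Fin n, ∑ x : Fin n → Fin (k + 1) → Bool, ∑ j, ∑ y : Fin n → Fin (k + 1) → Bool,
      (∏ l, muC k ε (x l) (y l)) * (if i = j then 0 else dlt (x i) (y i) * dlt (x j) (y j)) =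
      ∑ j, if i = j then 0 else ε ^ 2 := by
    intro i
    rw [Finset.sum_comm]
    apply Finset.sum_congr rfl
    intro j _
    split_ifs with hij
    · simp
    · rw [exp_two (muC k ε) hμ dlt i j hij, mean_dlt k hk ε]
  simp only [e2]
  have e3 : ∀ i : Fin n, ∑ j : Fin n, (if i = j then 0 else ε ^ 2) = (n - 1) * ε ^ 2 := by
    intro i
    have : ∀ j : Fin n, (if i = j then 0 else ε ^ 2) = ε ^ 2 - (if i = j then ε ^ 2 else 0) := by
      intro j; split_ifs <;> simp
    simp only [this, Finset.sum_sub_distrib]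
    simp
    ring
  simp only [e3]
  simp
  ring

/-- The bound on the expected communication of `n` copies. -/
theorem CC_upper (k κ : ℕ) (hk : 0 < k) (hκ : k ≤ 2 ^ κ) (ε : ℝ) (h0 : 0 ≤ ε) (h1 : ε ≤ 1)
    (n : ℕ) : CC (Fc k) (muC k ε) n ≤
      4 + κ * n + 3 * n * (n * ε) - κ * (n * ε) + κ * ((n ^ 2 - n) * ε ^ 2) := by
  have : NeZero k := ⟨hk.ne'⟩
  have hμ := isProb_muC k hk ε h0 h1
  have hle : CC (Fc k) (muC k ε) n ≤ ∑ x, ∑ y, (∏ i, muC k ε (x i) (y i)) *
      (protoN hκ n).cost x y := by
    apply csInf_le (costSet_bddBelow (Fc k) (muC k ε) hμ n)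
    exact ⟨protoN hκ n, protoN_zeroError hκ n, rfl⟩
  refine hle.trans ?_
  have hterm : ∀ x y : Fin n → Fin (k + 1) → Bool, (∏ i, muC k ε (x i) (y i)) *
      (protoN hκ n).cost x y ≤ (∏ i, muC k ε (x i) (y i)) * (4 + κ * n + 3 * n * dist0 x y -
        κ * dist0 x y + κ * ((dist0 x y : ℝ) ^ 2 - dist0 x y)) := by
    intro x y
    have hnn : 0 ≤ ∏ i, muC k ε (x i) (y i) :=
      Finset.prod_nonneg fun i _ => muC_nonneg k ε h0 h1 _ _
    rcases hnn.eq_or_lt with h | h
    · rw [← h]; simp
    · apply mul_le_mul_of_nonneg_left _ hnn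
      have hne : ∀ i, muC k ε (x i) (y i) ≠ 0 := by
        intro i hi
        exact h.ne' (Finset.prod_eq_zero (Finset.mem_univ i) hi)
      apply protoN_cost
      · intro i
        obtain ⟨b, hb, _⟩ := sing_of_muC (hne i)
        exact ⟨b, hb⟩
      · intro i hi
        obtain ⟨b, hb, hb2⟩ := sing_of_muC (hne i)
        rw [bpos_eq hb]
        exact hb2 hi
  refine (Finset.sum_le_sum fun x _ => Finset.sum_le_sum fun y _ => hterm x y).trans ?_
  have hsplit : ∀ x y : Fin n → Fin (k + 1) → Bool, (∏ i, muC k ε (x i) (y i)) *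
      (4 + κ * n + 3 * n * dist0 x y - κ * dist0 x y + κ * ((dist0 x y : ℝ) ^ 2 - dist0 x y)) =
      (4 + κ * n) * (∏ i, muC k ε (x i) (y i)) +
      (3 * n - κ) * ((∏ i, muC k ε (x i) (y i)) * dist0 x y) +
      κ * ((∏ i, muC k ε (x i) (y i)) * ((dist0 x y : ℝ) ^ 2 - dist0 x y)) := by
    intro x y; ring
  simp only [hsplit, Finset.sum_add_distrib, ← Finset.mul_sum]
  rw [mean_dist0 k hk ε h0 h1 n, mean_dist0_sq k hk ε h0 h1 n, sum_pow_one _ hμ n]
  apply le_of_eq
  ring

end Pool.Agent.Y539.XIC
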