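import Pool.Agent.Y539.XIC.Lower
import Pool.Agent.Y539.XIC.Upper

/-!
External information complexity is not the amortized zero-error communication.
-/

set_option autoImplicit false

namespace Pool.Agent.Y539.XIC

open Filter Topology

/-- The external information complexity of one copy exceeds the amortized expected
communication complexity by at least half a bit. -/
theorem gap (κ : ℕ) (hκ : κ + 1 = 196608) :
    ∃ L : ℝ, Tendsto (fun n : ℕ => CC (Fc (2 ^ κ)) (muC (2 ^ κ) (1 / 16384)) n / n) atTop (𝓝 L) ∧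
      L + 1 / 2 ≤ ICext (Fc (2 ^ κ)) (muC (2 ^ κ) (1 / 16384)) := by
  have hk : 0 < 2 ^ κ := by positivity
  have hμ : IsProb (muC (2 ^ κ) (1 / 16384)) :=
    isProb_muC (2 ^ κ) hk (1 / 16384) (by norm_num) (by norm_num)
  obtain ⟨L, hL, hle⟩ := exists_limit (Fc (2 ^ κ)) (muC (2 ^ κ) (1 / 16384)) hμ
  refine ⟨L, hL, ?_⟩
  have hκR : (κ : ℝ) + 1 = 196608 := by exact_mod_cast hκ
  have hlog : Real.log ((2 ^ κ : ℕ) : ℝ) = κ * Real.log 2 := by
    push_cast
    rw [Real.log_pow]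
  have hlog2 : Real.log (2 * ((2 ^ κ : ℕ) : ℝ)) = (κ + 1) * Real.log 2 := by
    rw [Real.log_mul (by norm_num) (by positivity), hlog]
    ring
  have l2 := Real.log_two_gt_d9
  have l2' := Real.log_two_lt_d9
  have hlow := ICext_lower (k := 2 ^ κ) (1 / 16384) hk (by norm_num) (by norm_num)
    (by rw [hlog2, hκR]; linarith)
  have hup := CC_upper (2 ^ κ) κ hk le_rfl (1 / 16384) (by norm_num) (by norm_num) 64
  have h64 := hle 64 (by norm_num)
  rw [hlog] at hlow
  have hpos : 0 < Real.log 2 := by linarith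
  have h1 : ((κ * Real.log 2 + 1 / 2) * (1 - 1 / 16384) - 1 / 16) / Real.log 2 =
      κ * (1 - 1 / 16384) + (1 / 2 * (1 - 1 / 16384) - 1 / 16) / Real.log 2 := by
    field_simp
    ring
  rw [h1] at hlow
  have h2 : (63 : ℝ) / 100 ≤ (1 / 2 * (1 - 1 / 16384) - 1 / 16) / Real.log 2 := by
    rw [le_div_iff₀ hpos]
    linarith
  have h3 : L * 64 ≤ CC (Fc (2 ^ κ)) (muC (2 ^ κ) (1 / 16384)) 64 := by
    have h := h64
    push_cast at h
    rw [le_div_iff₀ (by norm_num)] at h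
    exact h
  push_cast at hup
  have hκ' : (κ : ℝ) = 196607 := by linarith
  rw [hκ'] at hup hlow
  linarith

/-- The full statement. -/
theorem main : ∃ (m : ℕ) (F : (Fin m → Bool) → (Fin m → Bool) → Bool)
    (μ : (Fin m → Bool) → (Fin m → Bool) → ℝ), 1 ≤ m ∧ IsProb μ ∧
    ∃ L : ℝ, Tendsto (fun n : ℕ => CC F μ n / n) atTop (𝓝 L) ∧ L + 1 / 2 ≤ ICext F μ := by
  obtain ⟨κ, hκ⟩ : ∃ κ : ℕ, κ + 1 = 196608 := ⟨196607, rfl⟩
  have hk : 0 < 2 ^ κ := by positivity
  exact ⟨2 ^ κ + 1, Fc (2 ^ κ), muC (2 ^ κ) (1 / 16384), by omega,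
    isProb_muC (2 ^ κ) hk (1 / 16384) (by norm_num) (by norm_num), gap κ hκ⟩

end Pool.Agent.Y539.XIC
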