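import Mathlib

/-!
Real inequalities for the lower bound on the external information.
-/

set_option autoImplicit false

namespace Pool.Agent.Y539.XIC

open Real

lemma mul_log_div_ge (x P : ℝ) (hx : 0 ≤ x) (hP : 0 < P) : x - P ≤ x * Real.log (x / P) := by
  rcases hx.eq_or_lt with h | h
  · rw [← h]; simp; exact hP.le
  · have h1 : 1 - (x / P)⁻¹ ≤ Real.log (x / P) := Real.one_sub_inv_le_log_of_pos (by positivity)
    have h2 : x * (1 - (x / P)⁻¹) ≤ x * Real.log (x / P) := mul_le_mul_of_nonneg_left h1 hx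
    have h3 : x * (1 - (x / P)⁻¹) = x - P := by field_simp
    linarith

/-- The log-sum inequality, with the size of the support. -/
lemma logsum {ι : Type*} [Fintype ι] (f : ι → ℝ) (hf : ∀ i, 0 ≤ f i) (S : Finset ι)
    (hS : ∀ i, f i ≠ 0 → i ∈ S) (N : ℝ) (hN : (S.card : ℝ) ≤ N) :
    (∑ i, f i) * (Real.log (∑ i, f i) - Real.log N) ≤ ∑ i, f i * Real.log (f i) := by
  classical
  rcases (Finset.sum_nonneg (fun i (_ : i ∈ Finset.univ) => hf i)).eq_or_lt with h | h
  · have h0 : ∀ i, f i = 0 := by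
      intro i
      exact (Finset.sum_eq_zero_iff_of_nonneg (fun i _ => hf i)).1 h.symm i (Finset.mem_univ i)
    simp [h0]
  · set T := ∑ i, f i with hT
    have hTS : T = ∑ i ∈ S, f i := by
      rw [hT]
      symm
      apply Finset.sum_subset (Finset.subset_univ S)
      intro i _ hi
      by_contra hne
      exact hi (hS i hne)
    have hSpos : 0 < (S.card : ℝ) := by
      rw [Nat.cast_pos, Finset.card_pos]
      by_contra hne
      rw [Finset.not_nonempty_iff_eq_empty] at hne
      rw [hne] at hTS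
      simp at hTS
      linarith
    have hNpos : 0 < N := lt_of_lt_of_le hSpos hN
    have hz : 0 < T / N := div_pos h hNpos
    have h1 : ∀ i, f i * Real.log (T / N) + (f i - T / N) ≤ f i * Real.log (f i) := by
      intro i
      have := mul_log_div_ge (f i) (T / N) (hf i) hz
      rcases (hf i).eq_or_lt with h0 | h0
      · rw [← h0]; simp; positivity
      · rw [Real.log_div h0.ne' hz.ne'] at this
        linarith
    have h2 : ∑ i, f i * Real.log (f i) = ∑ i ∈ S, f i * Real.log (f i) := by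
      symm
      apply Finset.sum_subset (Finset.subset_univ S)
      intro i _ hi
      have : f i = 0 := by
        by_contra hne
        exact hi (hS i hne)
      simp [this]
    rw [h2, ← Real.log_div h.ne' hNpos.ne']
    calc T * Real.log (T / N) ≤ T * Real.log (T / N) + (T - S.card * (T / N)) := by
          have : (S.card : ℝ) * (T / N) ≤ N * (T / N) := mul_le_mul_of_nonneg_right hN hz.le
          have h3 : N * (T / N) = T := by field_simp
          linarith
      _ = ∑ i ∈ S, (f i * Real.log (T / N) + (f i - T / N)) := by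
          rw [Finset.sum_add_distrib, Finset.sum_sub_distrib, ← Finset.sum_mul, ← hTS]
          simp
      _ ≤ _ := Finset.sum_le_sum fun i _ => h1 i

/-- `a log (2a/m) + b log (2b/m) ≥ m/2 - √(ab)` for `m = a + b`. -/
lemma entropy_gap (a b : ℝ) (ha : 0 ≤ a) (hb : 0 ≤ b) (hm : 0 < a + b) :
    (a + b) / 2 - √(a * b) ≤
      a * Real.log (2 * a / (a + b)) + b * Real.log (2 * b / (a + b)) := by
  set m := a + b with hmdef
  have key : ∀ c : ℝ, 0 ≤ c → 2 * c - √(2 * m) * √c ≤ c * Real.log (2 * c / m) := by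
    intro c hc
    rcases hc.eq_or_lt with h | h
    · rw [← h]; simp
    · have hpos : 0 < 2 * c / m := by positivity
      have h1 : Real.log (2 * c / m) = 2 * Real.log (√(2 * c / m)) := by
        rw [Real.log_sqrt hpos.le]; ring
      have h2 : 1 - (√(2 * c / m))⁻¹ ≤ Real.log (√(2 * c / m)) :=
        Real.one_sub_inv_le_log_of_pos (Real.sqrt_pos.2 hpos)
      have h3 : c * (√(2 * c / m))⁻¹ = √(2 * m) * √c / 2 := by
        have e1 : √(2 * c / m) = √c * (√2 / √m) := by
          rw [mul_comm 2 c, mul_div_assoc, Real.sqrt_mul hc, Real.sqrt_div (by norm_num)]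
        have e2 : √(2 * m) = √2 * √m := Real.sqrt_mul (by norm_num) m
        have e3 : 0 < √c := Real.sqrt_pos.2 h
        have e4 : 0 < √m := Real.sqrt_pos.2 hm
        have e5 : 0 < √(2 : ℝ) := Real.sqrt_pos.2 (by norm_num)
        have e6 : √c * √c = c := Real.mul_self_sqrt hc
        have e7 : √(2 : ℝ) * √2 = 2 := Real.mul_self_sqrt (by norm_num)
        rw [e1, e2]
        field_simp
        nlinarith [e6, e7]
      have h4 : c * (2 * (1 - (√(2 * c / m))⁻¹)) ≤ c * (2 * Real.log (√(2 * c / m))) :=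
        mul_le_mul_of_nonneg_left (by linarith) hc
      rw [h1]
      nlinarith
  have h1 := key a ha
  have h2 := key b hb
  have e1 : √a * √a = a := Real.mul_self_sqrt ha
  have e2 : √b * √b = b := Real.mul_self_sqrt hb
  have e3 : √(a * b) = √a * √b := Real.sqrt_mul ha b
  have e4 : √(2 * m) * √(2 * m) = 2 * m := Real.mul_self_sqrt (by positivity)
  have h3 : √(2 * m) * (√a + √b) ≤ (2 * m + (√a + √b) ^ 2) / 2 := by
    nlinarith [sq_nonneg (√(2 * m) - (√a + √b))]
  have h4 : (√a + √b) ^ 2 = m + 2 * √(a * b) := by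
    rw [e3, hmdef]; nlinarith
  rw [h4] at h3
  nlinarith

lemma entropy_gap' (a b : ℝ) (ha : 0 ≤ a) (hb : 0 ≤ b) :
    (a + b) / 2 - √(a * b) ≤
      a * Real.log (2 * a / (a + b)) + b * Real.log (2 * b / (a + b)) := by
  rcases (add_nonneg ha hb).eq_or_lt with h | h
  · have h1 : a = 0 := by linarith
    have h2 : b = 0 := by linarith
    simp [h1, h2]
  · exact entropy_gap a b ha hb h

lemma cell_split (c u q σ τ M P : ℝ) (hu : 0 ≤ u) (hq : 0 ≤ q) (hc : c = u * q)
    (hM : 0 < c → 0 < M) (hP : 0 < P) :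
    c * (Real.log u - Real.log σ + (Real.log q - Real.log τ) - Real.log P) =
      c * Real.log (c / M) + c * Real.log (M / P) + c * (-Real.log σ - Real.log τ) := by
  rcases (mul_nonneg hu hq).eq_or_lt with h | h
  · rw [hc, ← h]; simp
  · have hu' : 0 < u := lt_of_le_of_ne hu (fun h' => by rw [← h'] at h; simp at h)
    have hq' : 0 < q := lt_of_le_of_ne hq (fun h' => by rw [← h'] at h; simp at h)
    have hc' : 0 < c := by rw [hc]; exact h
    have hM' := hM hc'
    rw [Real.log_div hc'.ne' hM'.ne', Real.log_div hM'.ne' hP.ne']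
    have : Real.log c = Real.log u + Real.log q := by rw [hc, Real.log_mul hu'.ne' hq'.ne']
    rw [this]; ring

lemma am_gm (c d : ℝ) (hc0 : 0 ≤ c) (hd0 : 0 ≤ d) :
    √(c * d) ≤ max c d / 32 + 8 * min c d := by
  have key : ∀ x y : ℝ, 0 ≤ x → 0 ≤ y → √(x * y) ≤ x / 32 + 8 * y := by
    intro x y hx hy
    apply Real.sqrt_le_iff.2
    refine ⟨by positivity, ?_⟩
    nlinarith [sq_nonneg (x / 32 - 8 * y)]
  rw [← max_mul_min c d]
  exact key _ _ (le_max_of_le_left hc0) (le_min hc0 hd0)

lemma final_lin (ε m M c d lK l2 θ mn mx sq LA LB Xa Xb Sa Sb Cc Dd Yc Yd Sc Sd a b A1 A2 : ℝ)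
    (hε0 : 0 < ε) (hε1 : ε < 1) (hm : m = a + b)
    (s1 : a * (l2 + lK) + b * (l2 + lK) ≤ Sa + Sb)
    (s2 : 2 * mn * (l2 + lK) ≤ Sc + Sd)
    (s3 : m / 2 - sq ≤ LA + LB)
    (s4 : 0 ≤ Cc + Dd)
    (hml : Xa + Xb = A1 - m * l2)
    (hMl : Yc + Yd = 2 * A2)
    (i3 : 0 ≤ (1 - ε) * A1 + ε * A2)
    (hsq : 0 ≤ sq) (am : sq ≤ mx / 32 + 8 * mn) (hθ : 8 ≤ θ) (hK : ε * (l2 + lK) = θ)
    (hmn : 0 ≤ mn) (mm : mx ≤ c + d) :
    (lK + 1 / 2) * ((1 - ε) * m) - (c + d) / 32 ≤
      (1 - ε) * (LA + Xa + Sa + (LB + Xb + Sb)) + ε / 2 * (Cc + Yc + Sc + (Dd + Yd + Sd)) := by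
  have h1ε : 0 ≤ 1 - ε := by linarith
  have t1 := mul_le_mul_of_nonneg_left s1 h1ε
  have t2 := mul_le_mul_of_nonneg_left s2 (by positivity : 0 ≤ ε / 2)
  have t3 := mul_le_mul_of_nonneg_left s3 h1ε
  have t4 := mul_nonneg (by positivity : 0 ≤ ε / 2) s4
  have t5 : (1 - ε) * (Xa + Xb) = (1 - ε) * (A1 - m * l2) := by rw [hml]
  have t6 : ε / 2 * (Yc + Yd) = ε / 2 * (2 * A2) := by rw [hMl]
  have t7 : ε / 2 * (2 * mn * (l2 + lK)) = θ * mn := by rw [← hK]; ring
  have t8 : 8 * mn ≤ θ * mn := mul_le_mul_of_nonneg_right hθ hmn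
  have t9 : (1 - ε) * sq ≤ sq := by nlinarith
  have t10 : (1 - ε) * (a * (l2 + lK) + b * (l2 + lK)) = (1 - ε) * (m * l2) + lK * ((1 - ε) * m) := by
    rw [hm]; ring
  rw [t7] at t2
  rw [t10] at t1
  have g1 : (1 - ε) * (LA + Xa + Sa + (LB + Xb + Sb)) =
    (1 - ε) * (LA + LB) + (1 - ε) * (Xa + Xb) + (1 - ε) * (Sa + Sb) := by ring
  have g2 : ε / 2 * (Cc + Yc + Sc + (Dd + Yd + Sd)) =
    ε / 2 * (Cc + Dd) + ε / 2 * (Yc + Yd) + ε / 2 * (Sc + Sd) := by ring
  rw [g1, g2, t5, t6]
  have g3 : (1 - ε) * (A1 - m * l2) = (1 - ε) * A1 - (1 - ε) * (m * l2) := by ring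
  have g4 : ε / 2 * (2 * A2) = ε * A2 := by ring
  have g5 : (1 - ε) * (m / 2 - sq) = (1 - ε) * m / 2 - (1 - ε) * sq := by ring
  have g6 : (lK + 1 / 2) * ((1 - ε) * m) = lK * ((1 - ε) * m) + (1 - ε) * m / 2 := by ring
  rw [g3, g4, g6]
  rw [g5] at t3
  linarith

/-- The inequality for one leaf of the protocol. -/
lemma leaf_ineq (ε K θ : ℝ) (hε0 : 0 < ε) (hε1 : ε < 1) (hθ : 8 ≤ θ) (hK : ε * Real.log (2 * K) = θ)
    (hK1 : 1 ≤ K) (u v p q σ₀ σ₁ τ₀ τ₁ P : ℝ)
    (hu : 0 ≤ u) (hv : 0 ≤ v) (hp : 0 ≤ p) (hq : 0 ≤ q)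
    (hσ₀ : σ₀ ≤ 1) (hσ₁ : σ₁ ≤ 1) (hτ₀ : τ₀ ≤ 1) (hτ₁ : τ₁ ≤ 1)
    (hσ₀' : 0 < u → 0 < σ₀) (hσ₁' : 0 < v → 0 < σ₁) (hτ₀' : 0 < p → 0 < τ₀) (hτ₁' : 0 < q → 0 < τ₁)
    (h₀ : σ₀ * τ₀ ≤ 1 / (2 * K)) (h₁ : σ₁ * τ₁ ≤ 1 / (2 * K))
    (hP : P = (1 - ε) * (u * p + v * q) + ε / 2 * (u * q + v * p)) :
    (Real.log K + 1 / 2) * ((1 - ε) * (u * p + v * q)) - (u * q + v * p) / 32 ≤
      (1 - ε) * (u * p * (Real.log u - Real.log σ₀ + (Real.log p - Real.log τ₀) - Real.log P) +
        v * q * (Real.log v - Real.log σ₁ + (Real.log q - Real.log τ₁) - Real.log P)) +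
      ε / 2 * (u * q * (Real.log u - Real.log σ₀ + (Real.log q - Real.log τ₁) - Real.log P) +
        v * p * (Real.log v - Real.log σ₁ + (Real.log p - Real.log τ₀) - Real.log P)) := by
  set a := u * p with ha
  set b := v * q with hb
  set c := u * q with hc
  set d := v * p with hd
  have ha0 : 0 ≤ a := mul_nonneg hu hp
  have hb0 : 0 ≤ b := mul_nonneg hv hq
  have hc0 : 0 ≤ c := mul_nonneg hu hq
  have hd0 : 0 ≤ d := mul_nonneg hv hp
  have habcd : a * b = c * d := by rw [ha, hb, hc, hd]; ring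
  have h1ε : 0 < 1 - ε := by linarith
  have hK0 : 0 < K := by linarith
  have pos_of : ∀ x y : ℝ, 0 ≤ x → 0 ≤ y → 0 < x * y → 0 < x ∧ 0 < y := by
    intro x y hx hy h
    refine ⟨lt_of_le_of_ne hx (fun h' => ?_), lt_of_le_of_ne hy (fun h' => ?_)⟩
    · rw [← h'] at h; simp at h
    · rw [← h'] at h; simp at h
  have hPnn : 0 ≤ P := by rw [hP]; positivity
  rcases hPnn.eq_or_lt with hP0 | hPpos
  · have e1 : 0 ≤ (1 - ε) * (a + b) := by positivity
    have e2 : 0 ≤ ε / 2 * (c + d) := by positivity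
    have e3 : (1 - ε) * (a + b) = 0 := by linarith
    have e4 : ε / 2 * (c + d) = 0 := by linarith
    have e5 : a + b = 0 := by
      rcases mul_eq_zero.1 e3 with h | h
      · linarith
      · exact h
    have e6 : c + d = 0 := by
      rcases mul_eq_zero.1 e4 with h | h
      · linarith
      · exact h
    have f1 : a = 0 := by linarith
    have f2 : b = 0 := by linarith
    have f3 : c = 0 := by linarith
    have f4 : d = 0 := by linarith
    rw [f1, f2, f3, f4]; simp
  · set m := a + b with hm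
    set M := (c + d) / 2 with hM
    have hm0 : 0 ≤ m := by positivity
    have hM0 : 0 ≤ M := by positivity
    have ca := cell_split a u p σ₀ τ₀ (m / 2) P hu hp ha (fun h => by positivity) hPpos
    have cb := cell_split b v q σ₁ τ₁ (m / 2) P hv hq hb (fun h => by positivity) hPpos
    have cc := cell_split c u q σ₀ τ₁ M P hu hq hc (fun h => by positivity) hPpos
    have cd := cell_split d v p σ₁ τ₀ M P hv hp hd (fun h => by positivity) hPpos
    rw [ca, cb, cc, cd]
    -- the support terms of the matched cells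
    have inv2K : 0 < 1 / (2 * K) := by positivity
    have sa : a * Real.log (2 * K) ≤ a * (-Real.log σ₀ - Real.log τ₀) := by
      rcases ha0.eq_or_lt with h | h
      · rw [← h]; simp
      · obtain ⟨h1, h2⟩ := pos_of u p hu hp h
        have h3 := hσ₀' h1
        have h4 := hτ₀' h2
        apply mul_le_mul_of_nonneg_left _ ha0
        have h5 : Real.log (σ₀ * τ₀) ≤ Real.log (1 / (2 * K)) :=
          Real.log_le_log (mul_pos h3 h4) h₀
        rw [Real.log_mul h3.ne' h4.ne', one_div, Real.log_inv] at h5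
        linarith
    have sb : b * Real.log (2 * K) ≤ b * (-Real.log σ₁ - Real.log τ₁) := by
      rcases hb0.eq_or_lt with h | h
      · rw [← h]; simp
      · obtain ⟨h1, h2⟩ := pos_of v q hv hq h
        have h3 := hσ₁' h1
        have h4 := hτ₁' h2
        apply mul_le_mul_of_nonneg_left _ hb0
        have h5 : Real.log (σ₁ * τ₁) ≤ Real.log (1 / (2 * K)) :=
          Real.log_le_log (mul_pos h3 h4) h₁
        rw [Real.log_mul h3.ne' h4.ne', one_div, Real.log_inv] at h5
        linarith
    -- the support terms of the mismatched cells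
    have hlog2K : 0 ≤ Real.log (2 * K) := Real.log_nonneg (by linarith)
    have scd : 2 * min c d * Real.log (2 * K) ≤
        c * (-Real.log σ₀ - Real.log τ₁) + d * (-Real.log σ₁ - Real.log τ₀) := by
      have nc : 0 ≤ c * (-Real.log σ₀ - Real.log τ₁) := by
        rcases hc0.eq_or_lt with h | h
        · rw [← h]; simp
        · obtain ⟨h1, h2⟩ := pos_of u q hu hq h
          have h3 := Real.log_nonpos (hσ₀' h1).le hσ₀
          have h4 := Real.log_nonpos (hτ₁' h2).le hτ₁
          apply mul_nonneg hc0; linarith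
      have nd : 0 ≤ d * (-Real.log σ₁ - Real.log τ₀) := by
        rcases hd0.eq_or_lt with h | h
        · rw [← h]; simp
        · obtain ⟨h1, h2⟩ := pos_of v p hv hp h
          have h3 := Real.log_nonpos (hσ₁' h1).le hσ₁
          have h4 := Real.log_nonpos (hτ₀' h2).le hτ₀
          apply mul_nonneg hd0; linarith
      rcases hc0.eq_or_lt with h | h
      · have : min c d = 0 := by rw [← h]; exact min_eq_left hd0
        rw [this]; linarith
      · rcases hd0.eq_or_lt with h' | h'
        · have : min c d = 0 := by rw [← h']; exact min_eq_right hc0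
          rw [this]; linarith
        · obtain ⟨h1, h2⟩ := pos_of u q hu hq h
          obtain ⟨h3, h4⟩ := pos_of v p hv hp h'
          have g1 := hσ₀' h1
          have g2 := hτ₁' h2
          have g3 := hσ₁' h3
          have g4 := hτ₀' h4
          have l1 := Real.log_nonpos g1.le hσ₀
          have l2 := Real.log_nonpos g2.le hτ₁
          have l3 := Real.log_nonpos g3.le hσ₁
          have l4 := Real.log_nonpos g4.le hτ₀
          have h5 : Real.log (σ₀ * τ₀) ≤ Real.log (1 / (2 * K)) :=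
            Real.log_le_log (mul_pos g1 g4) h₀
          have h6 : Real.log (σ₁ * τ₁) ≤ Real.log (1 / (2 * K)) :=
            Real.log_le_log (mul_pos g3 g2) h₁
          rw [Real.log_mul g1.ne' g4.ne', one_div, Real.log_inv] at h5
          rw [Real.log_mul g3.ne' g2.ne', one_div, Real.log_inv] at h6
          have hmin0 : 0 ≤ min c d := le_min hc0 hd0
          have k1 : min c d * (-Real.log σ₀ - Real.log τ₁) ≤ c * (-Real.log σ₀ - Real.log τ₁) :=
            mul_le_mul_of_nonneg_right (min_le_left _ _) (by linarith)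
          have k2 : min c d * (-Real.log σ₁ - Real.log τ₀) ≤ d * (-Real.log σ₁ - Real.log τ₀) :=
            mul_le_mul_of_nonneg_right (min_le_right _ _) (by linarith)
          have k3 : min c d * (2 * Real.log (2 * K)) ≤
              min c d * (-Real.log σ₀ - Real.log τ₁ + (-Real.log σ₁ - Real.log τ₀)) :=
            mul_le_mul_of_nonneg_left (by linarith) hmin0
          linarith
    -- (iii)
    have eg := entropy_gap' a b ha0 hb0
    have e2a : ∀ t : ℝ, t / (m / 2) = 2 * t / (a + b) := by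
      intro t; rw [← hm]; field_simp
    rw [e2a a, e2a b]
    -- (ii)
    have eM : c - M + (d - M) ≤ c * Real.log (c / M) + d * Real.log (d / M) := by
      rcases hM0.eq_or_lt with h | h
      · rw [← h]
        have : c + d = 0 := by rw [hM] at h; linarith
        simp; linarith
      · have := mul_log_div_ge c M hc0 h
        have := mul_log_div_ge d M hd0 h
        linarith
    have eM0 : c - M + (d - M) = 0 := by rw [hM]; ring
    -- (i)
    have i1 : m - P ≤ m * Real.log (m / P) := mul_log_div_ge m P hm0 hPpos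
    have i2 : M - P ≤ M * Real.log (M / P) := mul_log_div_ge M P hM0 hPpos
    have hPm : P = (1 - ε) * m + ε * M := by rw [hP, hm, hM]; ring
    have i3 : 0 ≤ (1 - ε) * (m * Real.log (m / P)) + ε * (M * Real.log (M / P)) := by
      have j1 := mul_le_mul_of_nonneg_left i1 h1ε.le
      have j2 := mul_le_mul_of_nonneg_left i2 hε0.le
      have j3 : (1 - ε) * (m - P) + ε * (M - P) = 0 := by linear_combination (-1) * hPm
      linarith
    have lm : m * Real.log (m / 2 / P) = m * Real.log (m / P) - m * Real.log 2 := by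
      rcases hm0.eq_or_lt with h | h
      · rw [← h]; simp
      · rw [show m / 2 / P = m / P / 2 by ring, Real.log_div (by positivity) (by norm_num)]
        ring
    have l2K : Real.log (2 * K) = Real.log 2 + Real.log K :=
      Real.log_mul (by norm_num) hK0.ne'
    have am := am_gm c d hc0 hd0
    rw [← habcd] at am
    have mm : max c d ≤ c + d := max_le (by linarith) (by linarith)
    rw [eM0] at eM
    rw [l2K] at sa sb scd hK
    exact final_lin ε m M c d (Real.log K) (Real.log 2) θ (min c d) (max c d) (√(a * b))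
      _ _ _ _ _ _ _ _ _ _ _ _ a b (m * Real.log (m / P)) (M * Real.log (M / P))
      hε0 hε1 hm (add_le_add sa sb) scd eg eM
      (by rw [← lm, hm]; ring) (by rw [hM]; ring) i3 (Real.sqrt_nonneg _) am hθ hK
      (le_min hc0 hd0) mm

end Pool.Agent.Y539.XIC
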