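import Pool.Agent.Y539.XIC.Dist
import Pool.Agent.Y539.XIC.Ineq

/-!
The lower bound on the external information of the zero-error protocols.
-/

set_option autoImplicit false

namespace Pool.Agent.Y539.XIC

open Protocol

lemma two_mul_le_pow (n : ℕ) : 2 * n ≤ 2 ^ n := by
  cases n with
  | zero => simp
  | succ m =>
    have : m < 2 ^ m := Nat.lt_two_pow_self
    rw [pow_succ]
    omega

/-- If every member of `S` contains `T` then `2 |S| |T| ≤ 2 ^ k`. -/
lemma support_bound {k : ℕ} (S : Finset (Fin k → Bool)) (T : Finset (Fin k))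
    (h : ∀ A ∈ S, ∀ b ∈ T, A b = true) : 2 * (S.card * T.card) ≤ 2 ^ k := by
  classical
  have h1 : (S ×ˢ T.powerset).card ≤ (Finset.univ : Finset (Fin k → Bool)).card := by
    apply Finset.card_le_card_of_injOn
      (fun z : (Fin k → Bool) × Finset (Fin k) => fun i => z.1 i && decide (i ∉ z.2))
    · intro z _
      simp
    · rintro ⟨A, R⟩ hz ⟨A', R'⟩ hz' heq
      have hz1 : A ∈ S ∧ R ⊆ T := by simpa using hz
      have hz2 : A' ∈ S ∧ R' ⊆ T := by simpa using hz'
      have hR : R = R' := by
        ext i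
        have hi := congrFun heq i
        simp only at hi
        constructor
        · intro hiR
          have e := h A' hz2.1 i (hz1.2 hiR)
          by_contra hne
          simp [hiR, e, hne] at hi
        · intro hiR
          have e := h A hz1.1 i (hz2.2 hiR)
          by_contra hne
          simp [hiR, e, hne] at hi
      subst hR
      have hA : A = A' := by
        funext i
        have hi := congrFun heq i
        simp only at hi
        by_cases hiR : i ∈ R
        · rw [h A hz1.1 i (hz1.2 hiR), h A' hz2.1 i (hz2.2 hiR)]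
        · simpa [hiR] using hi
      rw [hA]
  rw [Finset.card_product, Finset.card_powerset, Finset.card_univ, Fintype.card_fun,
    Fintype.card_bool, Fintype.card_fin] at h1
  calc 2 * (S.card * T.card) = S.card * (2 * T.card) := by ring
    _ ≤ S.card * 2 ^ T.card := Nat.mul_le_mul_left _ (two_mul_le_pow _)
    _ ≤ 2 ^ k := h1

/-- The contribution of one cell. -/
lemma cell_bound {I J : Type} [Fintype I] [Fintype J] (α : I → ℝ) (β : J → ℝ)
    (hα : ∀ i, 0 ≤ α i) (hβ : ∀ j, 0 ≤ β j) (SA : Finset I) (SB : Finset J)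
    (hSA : ∀ i, α i ≠ 0 → i ∈ SA) (hSB : ∀ j, β j ≠ 0 → j ∈ SB)
    (nA nB : ℝ) (hnA : 0 < nA) (hnB : 0 < nB) (P : ℝ) (hP : 0 < P) :
    (∑ i, α i) * (∑ j, β j) *
      (Real.log ((∑ i, α i) / nA) - Real.log (SA.card / nA) +
        (Real.log ((∑ j, β j) / nB) - Real.log (SB.card / nB)) - Real.log P) ≤
      ∑ i, ∑ j, α i * β j * Real.log (α i * β j / P) := by
  have hU : 0 ≤ ∑ i, α i := Finset.sum_nonneg fun i _ => hα i
  have hW : 0 ≤ ∑ j, β j := Finset.sum_nonneg fun j _ => hβ j
  have l1 := logsum α hα SA hSA SA.card le_rfl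
  have l2 := logsum β hβ SB hSB SB.card le_rfl
  have e1 : ∀ i j, α i * β j * Real.log (α i * β j / P) =
      α i * Real.log (α i) * β j + α i * (β j * Real.log (β j)) - α i * β j * Real.log P := by
    intro i j
    rcases (hα i).eq_or_lt with h | h
    · rw [← h]; simp
    · rcases (hβ j).eq_or_lt with h' | h'
      · rw [← h']; simp
      · rw [Real.log_div (mul_pos h h').ne' hP.ne', Real.log_mul h.ne' h'.ne']
        ring
  have e2 : ∑ i, ∑ j, α i * β j * Real.log (α i * β j / P) =
      (∑ i, α i * Real.log (α i)) * (∑ j, β j) + (∑ i, α i) * (∑ j, β j * Real.log (β j)) -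
      (∑ i, α i) * (∑ j, β j) * Real.log P := by
    simp only [e1, Finset.sum_add_distrib, Finset.sum_sub_distrib]
    rw [Finset.sum_mul_sum, Finset.sum_mul_sum, Finset.sum_mul_sum, Finset.sum_mul]
    simp only [Finset.sum_mul]
  rw [e2]
  have m1 := mul_le_mul_of_nonneg_right l1 hW
  have m2 := mul_le_mul_of_nonneg_left l2 hU
  rcases (mul_nonneg hU hW).eq_or_lt with h | h
  · rw [← h]
    rcases mul_eq_zero.1 h.symm with h0 | h0
    · rw [h0] at m1 m2 ⊢
      simp at m1 m2 ⊢
      linarith
    · rw [h0] at m1 m2 ⊢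
      simp at m1 m2 ⊢
      linarith
  · have hU' : 0 < ∑ i, α i := lt_of_le_of_ne hU (fun h' => by rw [← h'] at h; simp at h)
    have hW' : 0 < ∑ j, β j := lt_of_le_of_ne hW (fun h' => by rw [← h'] at h; simp at h)
    have cA : (0 : ℝ) < SA.card := by
      rw [Nat.cast_pos, Finset.card_pos]
      obtain ⟨i, _, hi⟩ := Finset.exists_ne_zero_of_sum_ne_zero hU'.ne'
      exact ⟨i, hSA i hi⟩
    have cB : (0 : ℝ) < SB.card := by
      rw [Nat.cast_pos, Finset.card_pos]
      obtain ⟨i, _, hi⟩ := Finset.exists_ne_zero_of_sum_ne_zero hW'.ne'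
      exact ⟨i, hSB i hi⟩
    rw [Real.log_div hU'.ne' hnA.ne', Real.log_div cA.ne' hnA.ne', Real.log_div hW'.ne' hnB.ne',
      Real.log_div cB.ne' hnB.ne']
    nlinarith

section Leaf

variable {k : ℕ} (ε : ℝ) (P : Protocol (Fin (k + 1) → Bool) (Fin (k + 1) → Bool) Bool)
  (t : P.Transcript)

/-- The probability of the transcript. -/
noncomputable def pt : ℝ := ∑ x, ∑ y, muC k ε x y * P.prob x y t

/-- The contribution of the transcript to the external information, in nats. -/
noncomputable def jt : ℝ :=
  ∑ x, ∑ y, muC k ε x y * (P.prob x y t * Real.log (P.prob x y t / pt ε P t))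

lemma leaf_bound (hk : 0 < k) (hε0 : 0 < ε) (hε1 : ε < 1)
    (hθ : 8 ≤ ε * Real.log (2 * k)) (hP : P.ZeroError (Fc k)) :
    (Real.log k + 1 / 2) * (∑ x, ∑ y, muM k ε x y * P.prob x y t) -
      (∑ x, ∑ y, muN k ε x y * P.prob x y t) / (16 * ε) ≤ jt ε P t := by
  have hk' : (0 : ℝ) < k := Nat.cast_pos.2 hk
  have hM0 : 0 ≤ ∑ x, ∑ y, muM k ε x y * P.prob x y t :=
    Finset.sum_nonneg fun x _ => Finset.sum_nonneg fun y _ =>
      mul_nonneg (muM_nonneg k ε hε1.le x y) (P.prob_nonneg x y t)
  have hN0 : 0 ≤ ∑ x, ∑ y, muN k ε x y * P.prob x y t :=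
    Finset.sum_nonneg fun x _ => Finset.sum_nonneg fun y _ =>
      mul_nonneg (muN_nonneg k ε hε0.le x y) (P.prob_nonneg x y t)
  have hC0 : ∀ x y, 0 ≤ muC k ε x y * P.prob x y t := fun x y =>
    mul_nonneg (muC_nonneg k ε hε0.le hε1.le x y) (P.prob_nonneg x y t)
  have hpt : pt ε P t = ∑ x, ∑ y, muM k ε x y * P.prob x y t +
      ∑ x, ∑ y, muN k ε x y * P.prob x y t := sum_muC k ε _
  have hp0 : 0 ≤ pt ε P t := by rw [hpt]; exact add_nonneg hM0 hN0
  rcases hp0.eq_or_lt with h0 | hpos
  · -- everything vanishes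
    have z1 : ∀ x y, muC k ε x y * P.prob x y t = 0 := by
      intro x y
      have h1 : ∑ x, ∑ y, muC k ε x y * P.prob x y t = 0 := h0.symm
      rw [Finset.sum_eq_zero_iff_of_nonneg (fun x _ => Finset.sum_nonneg fun y _ => hC0 x y)] at h1
      have h2 := h1 x (Finset.mem_univ x)
      rw [Finset.sum_eq_zero_iff_of_nonneg (fun y _ => hC0 x y)] at h2
      exact h2 y (Finset.mem_univ y)
    have e1 : jt ε P t = 0 := by
      unfold jt
      apply Finset.sum_eq_zero
      intro x _
      apply Finset.sum_eq_zero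
      intro y _
      rw [← mul_assoc, z1, zero_mul]
    have e2 : ∑ x, ∑ y, muM k ε x y * P.prob x y t = 0 := by linarith
    have e3 : ∑ x, ∑ y, muN k ε x y * P.prob x y t = 0 := by linarith
    rw [e1, e2, e3]
    simp
  · -- the output is true
    have hout : P.output t = true := by
      by_contra hne
      apply hpos.ne'
      unfold pt
      apply Finset.sum_eq_zero
      intro x _
      apply Finset.sum_eq_zero
      intro y _
      by_cases hmu : muC k ε x y = 0
      · rw [hmu, zero_mul]
      · by_cases hpr : P.prob x y t = 0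
        · rw [hpr, mul_zero]
        · exfalso
          apply hne
          rw [hP x y t hpr]
          exact Fc_of_muC hmu
    set α : Bool → (Fin k → Bool) → ℝ := fun w A => P.fA (Fin.cons w A) t with hα
    set β : Bool → Fin k → ℝ := fun w b => P.fB (Fin.cons w (sing b)) t with hβ
    have hα0 : ∀ w A, 0 ≤ α w A := fun w A => P.fA_nonneg _ t
    have hβ0 : ∀ w b, 0 ≤ β w b := fun w b => P.fB_nonneg _ t
    have hpr : ∀ w w' A b, P.prob (Fin.cons w A) (Fin.cons w' (sing b)) t = α w A * β w' b := by
      intro w w' A b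
      exact P.prob_eq _ _ t
    have hzero : ∀ w A b, A b ≠ true → α w A * β w b = 0 := by
      intro w A b hAb
      rw [← hpr]
      by_contra hne
      have h1 := hP _ _ t hne
      rw [hout] at h1
      have h2 : Fc k (Fin.cons w A) (Fin.cons w (sing b)) = false := by
        unfold Fc
        rw [decide_eq_false_iff_not]
        rintro (h | ⟨i, hi1, hi2⟩)
        · simp at h
        · rw [Fin.cons_succ] at hi1 hi2
          rw [sing_eq hi2] at hi1
          exact hAb hi1
      rw [h2] at h1
      exact Bool.noConfusion h1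
    classical
    set SA : Bool → Finset (Fin k → Bool) := fun w => Finset.univ.filter fun A => α w A ≠ 0 with hSA
    set SB : Bool → Finset (Fin k) := fun w => Finset.univ.filter fun b => β w b ≠ 0 with hSB
    have hsupp : ∀ w, 2 * ((SA w).card * (SB w).card) ≤ 2 ^ k := by
      intro w
      apply support_bound
      intro A hA b hb
      rw [hSA, Finset.mem_filter] at hA
      rw [hSB, Finset.mem_filter] at hb
      by_contra hne
      exact mul_ne_zero hA.2 hb.2 (hzero w A b hne)
    set nA : ℝ := 2 ^ k with hnA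
    have hnA0 : 0 < nA := by positivity
    set U : Bool → ℝ := fun w => ∑ A, α w A with hU
    set W : Bool → ℝ := fun w => ∑ b, β w b with hW
    have hU0 : ∀ w, 0 ≤ U w := fun w => Finset.sum_nonneg fun A _ => hα0 w A
    have hW0 : ∀ w, 0 ≤ W w := fun w => Finset.sum_nonneg fun A _ => hβ0 w A
    -- the four cells
    have cell : ∀ w w', U w * W w' * (Real.log (U w / nA) - Real.log ((SA w).card / nA) +
        (Real.log (W w' / k) - Real.log ((SB w').card / k)) - Real.log (pt ε P t)) ≤
        ∑ A, ∑ b, α w A * β w' b * Real.log (α w A * β w' b / pt ε P t) := by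
      intro w w'
      apply cell_bound (α w) (β w') (hα0 w) (hβ0 w') (SA w) (SB w') _ _ nA k hnA0 hk' _ hpos
      · intro A hA
        rw [hSA, Finset.mem_filter]
        exact ⟨Finset.mem_univ _, hA⟩
      · intro A hA
        rw [hSB, Finset.mem_filter]
        exact ⟨Finset.mem_univ _, hA⟩
    -- the sums over the distribution
    have sM : ∀ g : ℝ → ℝ, ∑ x, ∑ y, muM k ε x y * (P.prob x y t * g (P.prob x y t)) =
        (1 - ε) / (k * nA) * (∑ w : Bool, ∑ A, ∑ b, α w A * β w b * g (α w A * β w b)) := by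
      intro g
      rw [sum_muM]
      rw [Finset.mul_sum]
      apply Finset.sum_congr rfl
      intro w _
      rw [Finset.mul_sum]
      apply Finset.sum_congr rfl
      intro A _
      rw [Finset.mul_sum]
      apply Finset.sum_congr rfl
      intro b _
      rw [hpr]
      split_ifs with hAb
      · rfl
      · rw [hzero w A b hAb]; simp
    have sN : ∀ g : ℝ → ℝ, ∑ x, ∑ y, muN k ε x y * (P.prob x y t * g (P.prob x y t)) =
        ε / (k * (2 * nA)) * (∑ w : Bool, ∑ A, ∑ b, α w A * β (!w) b * g (α w A * β (!w) b)) := by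
      intro g
      rw [sum_muN]
      rw [Finset.mul_sum]
      apply Finset.sum_congr rfl
      intro w _
      rw [Finset.mul_sum]
      apply Finset.sum_congr rfl
      intro A _
      rw [Finset.mul_sum]
      apply Finset.sum_congr rfl
      intro b _
      rw [hpr, pow_succ, hnA]
      ring
    have UW : ∀ w w', ∑ A, ∑ b, α w A * β w' b = U w * W w' := by
      intro w w'
      rw [hU, hW, Finset.sum_mul_sum]
    have vM : ∑ x, ∑ y, muM k ε x y * P.prob x y t =
        (1 - ε) * (U false / nA * (W false / k) + U true / nA * (W true / k)) := by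
      have := sM (fun _ => 1)
      simp only [mul_one] at this
      rw [this, Fintype.sum_bool, UW, UW]
      field_simp
      ring
    have vN : ∑ x, ∑ y, muN k ε x y * P.prob x y t =
        ε / 2 * (U false / nA * (W true / k) + U true / nA * (W false / k)) := by
      have := sN (fun _ => 1)
      simp only [mul_one] at this
      rw [this, Fintype.sum_bool, UW, UW, Bool.not_true, Bool.not_false]
      field_simp
      ring
    have vJ : jt ε P t = (1 - ε) / (k * nA) *
          (∑ w : Bool, ∑ A, ∑ b, α w A * β w b * Real.log (α w A * β w b / pt ε P t)) +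
        ε / (k * (2 * nA)) * (∑ w : Bool, ∑ A, ∑ b,
          α w A * β (!w) b * Real.log (α w A * β (!w) b / pt ε P t)) := by
      unfold jt
      rw [sum_muC, sM (fun z => Real.log (z / pt ε P t)), sN (fun z => Real.log (z / pt ε P t))]
    have dens : ∀ w, (SA w).card / nA * ((SB w).card / k) ≤ 1 / (2 * k) := by
      intro w
      have h1 : (2 * ((SA w).card * (SB w).card) : ℝ) ≤ nA := by
        have := hsupp w
        rw [hnA]
        exact_mod_cast this
      rw [div_mul_div_comm, div_le_div_iff₀ (by positivity) (by positivity)]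
      nlinarith
    have sA1 : ∀ w, (SA w).card / nA ≤ 1 := by
      intro w
      rw [div_le_one hnA0, hnA]
      have : (SA w).card ≤ 2 ^ k := by
        have := Finset.card_le_univ (SA w)
        rwa [Fintype.card_fun, Fintype.card_bool, Fintype.card_fin] at this
      exact_mod_cast this
    have sB1 : ∀ w, ((SB w).card : ℝ) / k ≤ 1 := by
      intro w
      rw [div_le_one hk']
      have : (SB w).card ≤ k := by
        have := Finset.card_le_univ (SB w)
        rwa [Fintype.card_fin] at this
      exact_mod_cast this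
    have sA2 : ∀ w, 0 < U w / nA → 0 < (SA w).card / nA := by
      intro w h
      apply div_pos _ hnA0
      rw [Nat.cast_pos, Finset.card_pos]
      have h1 : 0 < U w := by
        by_contra hne
        have : U w = 0 := le_antisymm (not_lt.1 hne) (hU0 w)
        rw [this] at h
        simp at h
      obtain ⟨A, _, hA⟩ := Finset.exists_ne_zero_of_sum_ne_zero h1.ne'
      exact ⟨A, by rw [hSA, Finset.mem_filter]; exact ⟨Finset.mem_univ _, hA⟩⟩
    have sB2 : ∀ w, 0 < W w / k → 0 < ((SB w).card : ℝ) / k := by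
      intro w h
      apply div_pos _ hk'
      rw [Nat.cast_pos, Finset.card_pos]
      have h1 : 0 < W w := by
        by_contra hne
        have : W w = 0 := le_antisymm (not_lt.1 hne) (hW0 w)
        rw [this] at h
        simp at h
      obtain ⟨A, _, hA⟩ := Finset.exists_ne_zero_of_sum_ne_zero h1.ne'
      exact ⟨A, by rw [hSB, Finset.mem_filter]; exact ⟨Finset.mem_univ _, hA⟩⟩
    have main := leaf_ineq ε k (ε * Real.log (2 * k)) hε0 hε1 hθ rfl (by exact_mod_cast hk)
      (U false / nA) (U true / nA) (W false / k) (W true / k)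
      ((SA false).card / nA) ((SA true).card / nA) ((SB false).card / k) ((SB true).card / k)
      (pt ε P t) (div_nonneg (hU0 _) hnA0.le) (div_nonneg (hU0 _) hnA0.le)
      (div_nonneg (hW0 _) hk'.le) (div_nonneg (hW0 _) hk'.le)
      (sA1 _) (sA1 _) (sB1 _) (sB1 _) (sA2 _) (sA2 _) (sB2 _) (sB2 _) (dens _) (dens _)
      (by rw [hpt, vM, vN])
    rw [vM, vN, vJ, Fintype.sum_bool, Fintype.sum_bool, Bool.not_true, Bool.not_false]
    have c1 : 0 ≤ (1 - ε) / (k * nA) := by
      have : 0 ≤ 1 - ε := by linarith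
      positivity
    have c2 : 0 ≤ ε / (k * (2 * nA)) := by positivity
    have r1 := mul_le_mul_of_nonneg_left (add_le_add (cell true true) (cell false false)) c1
    have r2 := mul_le_mul_of_nonneg_left (add_le_add (cell true false) (cell false true)) c2
    have r3 := add_le_add r1 r2
    refine le_trans ?_ r3
    refine le_trans (le_of_eq ?_) (main.trans (le_of_eq ?_))
    · field_simp
      ring
    · field_simp
      ring

end Leaf

lemma sum_t_weight {X Y Z : Type} [Fintype X] [Fintype Y] (P : Protocol X Y Z) (μ : X → Y → ℝ) :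
    ∑ t, ∑ x, ∑ y, μ x y * P.prob x y t = ∑ x, ∑ y, μ x y := by
  rw [Finset.sum_comm]
  apply Finset.sum_congr rfl
  intro x _
  rw [Finset.sum_comm]
  apply Finset.sum_congr rfl
  intro y _
  rw [← Finset.mul_sum, P.sum_prob, mul_one]

/-- The lower bound, in bits. -/
theorem extInfo_lower {k : ℕ} (ε : ℝ)
    (P : Protocol (Fin (k + 1) → Bool) (Fin (k + 1) → Bool) Bool)
    (hk : 0 < k) (hε0 : 0 < ε) (hε1 : ε < 1)
    (hθ : 8 ≤ ε * Real.log (2 * k)) (hP : P.ZeroError (Fc k)) :
    ((Real.log k + 1 / 2) * (1 - ε) - 1 / 16) / Real.log 2 ≤ P.extInfo (muC k ε) := by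
  have h1 : ∑ t, ((Real.log k + 1 / 2) * (∑ x, ∑ y, muM k ε x y * P.prob x y t) -
      (∑ x, ∑ y, muN k ε x y * P.prob x y t) / (16 * ε)) ≤ ∑ t, jt ε P t :=
    Finset.sum_le_sum fun t _ => leaf_bound ε P t hk hε0 hε1 hθ hP
  rw [Finset.sum_sub_distrib, ← Finset.mul_sum, ← Finset.sum_div, sum_t_weight, sum_t_weight,
    mass_muM k hk, mass_muN k hk] at h1
  have h2 : P.extInfo (muC k ε) = (∑ t, jt ε P t) / Real.log 2 := by
    unfold Protocol.extInfo jt pt
    rw [Finset.sum_div]
    apply Finset.sum_congr rfl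
    intro t _
    rw [Finset.sum_div]
    apply Finset.sum_congr rfl
    intro x _
    rw [Finset.sum_div]
    apply Finset.sum_congr rfl
    intro y _
    rw [Real.logb]
    ring
  rw [h2]
  apply div_le_div_of_nonneg_right _ (Real.log_nonneg (by norm_num))
  have h3 : ε / (16 * ε) = 1 / 16 := by field_simp
  rw [h3] at h1
  exact h1

/-- The lower bound for the external information complexity. -/
theorem ICext_lower {k : ℕ} (ε : ℝ) (hk : 0 < k) (hε0 : 0 < ε) (hε1 : ε < 1)
    (hθ : 8 ≤ ε * Real.log (2 * k)) :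
    ((Real.log k + 1 / 2) * (1 - ε) - 1 / 16) / Real.log 2 ≤ ICext (Fc k) (muC k ε) := by
  unfold ICext
  apply le_csInf
  · obtain ⟨P, hP⟩ := Protocol.exists_zeroError (Fc k)
    exact ⟨_, P, hP, rfl⟩
  · rintro r ⟨P, hP, rfl⟩
    exact extInfo_lower ε P hk hε0 hε1 hθ hP

end Pool.Agent.Y539.XIC
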