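import Pool.Agent.Y539.XIC.Basic

/-!
Subadditivity of the expected communication complexity, and the limit per copy.
-/

set_option autoImplicit false

namespace Pool.Agent.Y539.XIC

open Protocol Filter Topology

variable {X Y : Type} [Fintype X] [Fintype Y]

/-- The set whose infimum is `CC F μ n`. -/
def costSet (F : X → Y → Bool) (μ : X → Y → ℝ) (n : ℕ) : Set ℝ :=
  {r : ℝ | ∃ P : Protocol (Fin n → X) (Fin n → Y) (Fin n → Bool),
    P.ZeroError (fun x y i => F (x i) (y i)) ∧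
    r = ∑ x, ∑ y, (∏ i, μ (x i) (y i)) * P.cost x y}

lemma CC_eq (F : X → Y → Bool) (μ : X → Y → ℝ) (n : ℕ) : CC F μ n = sInf (costSet F μ n) := rfl

lemma sum_prod_pair {n : ℕ} (g : Fin n → X → Y → ℝ) :
    ∑ x : Fin n → X, ∑ y : Fin n → Y, ∏ i, g i (x i) (y i) = ∏ i, ∑ a, ∑ b, g i a b := by
  classical
  rw [Fintype.prod_sum (fun i a => ∑ b, g i a b)]
  apply Finset.sum_congr rfl
  intro x _
  rw [Fintype.prod_sum (fun i b => g i (x i) b)]

lemma sum_pow_one (μ : X → Y → ℝ) (hμ : IsProb μ) (n : ℕ) :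
    ∑ x : Fin n → X, ∑ y : Fin n → Y, ∏ i, μ (x i) (y i) = 1 := by
  rw [sum_prod_pair (fun _ => μ)]
  simp [hμ.2]

lemma costSet_nonneg (F : X → Y → Bool) (μ : X → Y → ℝ) (hμ : IsProb μ) (n : ℕ) :
    ∀ r ∈ costSet F μ n, 0 ≤ r := by
  rintro r ⟨P, _, rfl⟩
  apply Finset.sum_nonneg
  intro x _
  apply Finset.sum_nonneg
  intro y _
  exact mul_nonneg (Finset.prod_nonneg fun i _ => hμ.1 _ _) (P.cost_nonneg x y)

lemma costSet_bddBelow (F : X → Y → Bool) (μ : X → Y → ℝ) (hμ : IsProb μ) (n : ℕ) :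
    BddBelow (costSet F μ n) := ⟨0, fun r hr => costSet_nonneg F μ hμ n r hr⟩

lemma costSet_nonempty [Nonempty Y] (F : X → Y → Bool) (μ : X → Y → ℝ) (n : ℕ) :
    (costSet F μ n).Nonempty := by
  obtain ⟨P, hP⟩ := Protocol.exists_zeroError
    (fun (x : Fin n → X) (y : Fin n → Y) (i : Fin n) => F (x i) (y i))
  exact ⟨_, P, hP, rfl⟩

lemma CC_nonneg [Nonempty Y] (F : X → Y → Bool) (μ : X → Y → ℝ) (hμ : IsProb μ) (n : ℕ) :
    0 ≤ CC F μ n :=
  le_csInf (costSet_nonempty F μ n) (costSet_nonneg F μ hμ n)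

/-- Running one protocol on the first `m` coordinates and another one on the last `n`. -/
def both {m n : ℕ} (P : Protocol (Fin m → X) (Fin m → Y) (Fin m → Bool))
    (Q : Protocol (Fin n → X) (Fin n → Y) (Fin n → Bool)) :
    Protocol (Fin (m + n) → X) (Fin (m + n) → Y) (Fin (m + n) → Bool) :=
  (P.comap (fun x i => x (Fin.castAdd n i)) (fun y i => y (Fin.castAdd n i))).bind fun z =>
    (Q.comap (fun x i => x (Fin.natAdd m i)) (fun y i => y (Fin.natAdd m i))).bind fun z' =>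
      out (Fin.append z z')

omit [Fintype X] [Fintype Y] in
lemma both_cost {m n : ℕ} (P : Protocol (Fin m → X) (Fin m → Y) (Fin m → Bool))
    (Q : Protocol (Fin n → X) (Fin n → Y) (Fin n → Bool)) (x : Fin (m + n) → X)
    (y : Fin (m + n) → Y) : (both P Q).cost x y =
      P.cost (fun i => x (Fin.castAdd n i)) (fun i => y (Fin.castAdd n i)) +
      Q.cost (fun i => x (Fin.natAdd m i)) (fun i => y (Fin.natAdd m i)) := by
  unfold both
  rw [Protocol.cost_bind _ _ _ _
    (Q.cost (fun i => x (Fin.natAdd m i)) (fun i => y (Fin.natAdd m i)))]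
  · rw [Protocol.cost_comap]
  · intro z
    rw [Protocol.cost_bind _ _ _ _ 0 (fun z' => rfl), Protocol.cost_comap, add_zero]

omit [Fintype X] [Fintype Y] in
lemma both_zeroError {m n : ℕ} (F : X → Y → Bool)
    (P : Protocol (Fin m → X) (Fin m → Y) (Fin m → Bool))
    (Q : Protocol (Fin n → X) (Fin n → Y) (Fin n → Bool))
    (hP : P.ZeroError (fun x y i => F (x i) (y i))) (hQ : Q.ZeroError (fun x y i => F (x i) (y i))) :
    (both P Q).ZeroError (fun x y i => F (x i) (y i)) := by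
  rw [Protocol.zeroError_iff] at hP hQ ⊢
  intro x y z hz
  unfold both at hz
  rw [Protocol.reach_bind] at hz
  obtain ⟨z1, h1, hz⟩ := hz
  rw [Protocol.reach_bind] at hz
  obtain ⟨z2, h2, hz⟩ := hz
  rw [Protocol.reach_comap] at h1 h2
  have e1 := hP _ _ _ h1
  have e2 := hQ _ _ _ h2
  have e3 : Fin.append z1 z2 = z := hz
  rw [← e3, e1, e2]
  funext i
  refine Fin.addCases (fun i => ?_) (fun i => ?_) i
  · rw [Fin.append_left]
  · rw [Fin.append_right]

lemma sum_append {m n : ℕ} (A : Type) [Fintype A] (f : (Fin (m + n) → A) → ℝ) :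
    ∑ x, f x = ∑ x₁ : Fin m → A, ∑ x₂ : Fin n → A, f (Fin.append x₁ x₂) := by
  rw [← Fintype.sum_prod_type' (f := fun x₁ x₂ => f (Fin.append x₁ x₂))]
  exact (Equiv.sum_comp (Fin.appendEquiv m n) f).symm

lemma CC_add_le (F : X → Y → Bool) (μ : X → Y → ℝ) (hμ : IsProb μ) [Nonempty Y] (m n : ℕ) :
    CC F μ (m + n) ≤ CC F μ m + CC F μ n := by
  have key : ∀ r ∈ costSet F μ m, ∀ s ∈ costSet F μ n, CC F μ (m + n) ≤ r + s := by
    rintro r ⟨P, hP, rfl⟩ s ⟨Q, hQ, rfl⟩
    refine csInf_le (costSet_bddBelow F μ hμ (m + n)) ⟨both P Q, both_zeroError F P Q hP hQ, ?_⟩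
    rw [sum_append X]
    simp only [sum_append Y, both_cost, Fin.prod_univ_add, Fin.append_left, Fin.append_right]
    have h1 : ∀ (x₁ : Fin m → X) (x₂ : Fin n → X) (y₁ : Fin m → Y) (y₂ : Fin n → Y),
        ((∏ i, μ (x₁ i) (y₁ i)) * ∏ i, μ (x₂ i) (y₂ i)) * (P.cost x₁ y₁ + Q.cost x₂ y₂) =
        ((∏ i, μ (x₁ i) (y₁ i)) * P.cost x₁ y₁) * (∏ i, μ (x₂ i) (y₂ i)) +
        (∏ i, μ (x₁ i) (y₁ i)) * ((∏ i, μ (x₂ i) (y₂ i)) * Q.cost x₂ y₂) := by
      intros; ring
    have h2 := sum_pow_one μ hμ m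
    have h3 := sum_pow_one μ hμ n
    simp only [h1, Finset.sum_add_distrib]
    congr 1
    · calc ∑ x₁ : Fin m → X, ∑ y₁ : Fin m → Y, (∏ i, μ (x₁ i) (y₁ i)) * P.cost x₁ y₁
          = ∑ x₁ : Fin m → X, (∑ y₁ : Fin m → Y, (∏ i, μ (x₁ i) (y₁ i)) * P.cost x₁ y₁) *
              (∑ x₂ : Fin n → X, ∑ y₂ : Fin n → Y, ∏ i, μ (x₂ i) (y₂ i)) := by
            rw [h3]; simp
        _ = _ := by
            apply Finset.sum_congr rfl
            intro x₁ _
            rw [Finset.mul_sum]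
            apply Finset.sum_congr rfl
            intro x₂ _
            rw [Finset.sum_mul_sum]
    · calc ∑ x₂ : Fin n → X, ∑ y₂ : Fin n → Y, (∏ i, μ (x₂ i) (y₂ i)) * Q.cost x₂ y₂
          = (∑ x₁ : Fin m → X, ∑ y₁ : Fin m → Y, ∏ i, μ (x₁ i) (y₁ i)) *
              ∑ x₂ : Fin n → X, ∑ y₂ : Fin n → Y, (∏ i, μ (x₂ i) (y₂ i)) * Q.cost x₂ y₂ := by
            rw [h2]; simp
        _ = _ := by
            rw [Finset.sum_mul]
            apply Finset.sum_congr rfl
            intro x₁ _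
            rw [Finset.mul_sum]
            apply Finset.sum_congr rfl
            intro x₂ _
            rw [Finset.sum_mul_sum]
  have h1 : ∀ s ∈ costSet F μ n, CC F μ (m + n) - s ≤ CC F μ m := by
    intro s hs
    apply le_csInf (costSet_nonempty F μ m)
    intro r hr
    have := key r hr s hs
    linarith
  have h2 : CC F μ (m + n) - CC F μ m ≤ CC F μ n := by
    apply le_csInf (costSet_nonempty F μ n)
    intro s hs
    have := h1 s hs
    linarith
  linarith

/-- The limit of the expected communication complexity per copy exists, and it is at most the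
value for any number of copies. -/
theorem exists_limit (F : X → Y → Bool) (μ : X → Y → ℝ) (hμ : IsProb μ) [Nonempty Y] :
    ∃ L : ℝ, Tendsto (fun n : ℕ => CC F μ n / n) atTop (𝓝 L) ∧
      ∀ n : ℕ, n ≠ 0 → L ≤ CC F μ n / n := by
  have hsub : Subadditive (fun n => CC F μ n) := fun m n => CC_add_le F μ hμ m n
  have hbdd : BddBelow (Set.range fun n : ℕ => CC F μ n / n) := by
    refine ⟨0, ?_⟩
    rintro r ⟨n, rfl⟩
    exact div_nonneg (CC_nonneg F μ hμ n) (Nat.cast_nonneg n)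
  exact ⟨hsub.lim, hsub.tendsto_lim hbdd, fun n hn => hsub.lim_le_div hbdd hn⟩

end Pool.Agent.Y539.XIC
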